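import Pool.Agent.N772.TC.Lya

/-!
# The next superattracting parameter of the same period
-/

set_option autoImplicit false

open Set Filter Metric MeasureTheory Topology

namespace Pool.Agent.N772.TC

open Pool.Agent.H712R2 (P fc)
open Pool.Agent.Y298.CA (Lyap)
open Pool.Agent.N896.MB (Ex low_ex)

variable {d : ℕ}

theorem near_other (hd : 2 ≤ d) {χ : ℝ} {c₀ : ℂ} (h : Lyap d χ c₀) {ε : ℝ} (hε : 0 < ε)
    (hεχ : ε ≤ χ) :
    ∃ δ : ℝ, 0 < δ ∧ ∀ᶠ n : ℕ in atTop, ∀ c : ℂ, ‖c - c₀‖ ≤ Real.exp (-((χ - δ) * n)) →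
      ∃ b ∈ Cn d n, b ≠ c ∧ ‖b - c‖ ≤ Real.exp (-((χ - ε) * n)) := by
  have hχ := h.1
  have hd1 : (1 : ℝ) < d := by exact_mod_cast (by omega : 1 < d)
  have hd0 : (0 : ℝ) < d := by linarith
  have hL0 : 0 < Real.log d := Real.log_pos hd1
  obtain ⟨κ, hκ⟩ : ∃ κ, κ = Real.log d / χ := ⟨_, rfl⟩
  have hκ0 : 0 < κ := by rw [hκ]; positivity
  have hκχ : κ * χ = Real.log d := by rw [hκ]; field_simp
  have hδ : 0 < κ * ε / 4 := by positivity
  have hε2 : 0 < ε / 2 := by positivity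
  refine ⟨ε / 2, hε2, ?_⟩
  filter_upwards [eventually_ge_atTop 1, low_ex hd h hδ, ev_lin hδ (Real.log 4),
    ev_lin hε2 (Real.log 2)] with n hn e1 e2 e3 c hc
  have hn0 : (0 : ℝ) < n := by exact_mod_cast hn
  obtain ⟨r, hr⟩ : ∃ r, r = Real.exp (-((χ - ε / 2) * n)) := ⟨_, rfl⟩
  have hr0 : 0 < r := by rw [hr]; exact Real.exp_pos _
  have hr1 : r ≤ 1 := by
    rw [hr, Real.exp_le_one_iff]
    have : 0 ≤ (χ - ε / 2) * n := mul_nonneg (by linarith) hn0.le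
    linarith
  have h1 := e1 r hr0 hr1
  rw [← hκ] at h1
  have h2 : (d : ℝ) ^ n * r ^ κ = Real.exp (κ * ε / 4 * n) * Real.exp (κ * ε / 4 * n) := by
    have h3 : (d : ℝ) ^ n = Real.exp (κ * χ * n) := by
      rw [hκχ, mul_comm, Real.exp_nat_mul, Real.exp_log hd0]
    rw [h3, hr, ← Real.exp_mul, ← Real.exp_add, ← Real.exp_add]
    congr 1
    ring
  rw [h2] at h1
  have h4 := le_of_mul_le_mul_left h1 (Real.exp_pos _)
  have h5 : (4 : ℝ) ≤ Real.exp (κ * ε / 4 * n) := by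
    calc (4 : ℝ) = Real.exp (Real.log 4) := (Real.exp_log (by norm_num)).symm
      _ ≤ _ := Real.exp_le_exp.2 e2.le
  have h6 : 1 < (Ex d n c₀ r).ncard := by
    have : (3 : ℝ) ≤ (Ex d n c₀ r).ncard := by linarith
    have : 3 ≤ (Ex d n c₀ r).ncard := by exact_mod_cast this
    omega
  obtain ⟨b, hb, hbc⟩ := Set.exists_ne_of_one_lt_ncard h6 c
  refine ⟨b, hb.2, hbc, ?_⟩
  have h7 : ‖b - c₀‖ ≤ r := by
    have := hb.1
    rw [mem_ball, dist_eq_norm] at this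
    exact this.le
  rw [← hr] at hc
  calc ‖b - c‖ = ‖(b - c₀) - (c - c₀)‖ := by congr 1; ring
    _ ≤ ‖b - c₀‖ + ‖c - c₀‖ := norm_sub_le _ _
    _ ≤ r + r := add_le_add h7 hc
    _ = 2 * Real.exp (-((χ - ε / 2) * n)) := by rw [hr]; ring
    _ ≤ Real.exp (ε / 2 * n) * Real.exp (-((χ - ε / 2) * n)) := by
        gcongr
        calc (2 : ℝ) = Real.exp (Real.log 2) := (Real.exp_log (by norm_num)).symm
          _ ≤ _ := Real.exp_le_exp.2 e3.le
    _ = _ := by rw [← Real.exp_add]; congr 1; ring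

/-- the distance to a finite set -/
theorem infDist_fin {S : Set ℂ} (hS : S.Finite) (hne : S.Nonempty) (c : ℂ) :
    ∃ b ∈ S, infDist c S = ‖b - c‖ := by
  obtain ⟨b, hb, h⟩ := hS.isCompact.exists_infDist_eq_dist hne c
  exact ⟨b, hb, by rw [h, dist_comm, dist_eq_norm]⟩

end Pool.Agent.N772.TC
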