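import Pool.Agent.N772.TC.Props

/-!
# Areas of the discs about the superattracting parameters next to `c₀`, and all properties
-/

set_option autoImplicit false

open Set Metric MeasureTheory Filter Topology

namespace Pool.Agent.N772.TC

open Pool.Agent.H713R2 (IsExteriorMap)
open Pool.Agent.H712R2 (P fc)
open Pool.Agent.Y736.HD (Ang)
open Pool.Agent.Y298.CA (Lyap Scal scal_all HH)

variable {d : ℕ} {ψ : ℂ → ℂ}

theorem mb_sub (hd : 2 ≤ d) : N62a1eb23.multibrotSet d ⊆ closedBall 0 2 := by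
  intro c hc
  rw [Pool.Agent.H712R2.mem_multibrot_iff hd] at hc
  have h1 := hc 1
  rw [mem_closedBall_zero_iff]
  have h2 : P d 1 c = c := by
    show (fc d c)^[1] 0 = c
    simp [fc, zero_pow (by omega : d ≠ 0)]
  rwa [h2] at h1

theorem near_area_gen (hd : 2 ≤ d) {c₀ : ℂ} (h : Lyap d (Real.log d) c₀) {S : Set ℂ}
    (hS : S ⊆ closedBall 0 2)
    (hlim : Tendsto (fun r : ℝ => Real.log (volume (S ∩ ball c₀ r)).toReal / Real.log r) (𝓝[>] 0)
      (𝓝 (2 * d / ((d : ℝ) - 1)))) {ε : ℝ} (hε : 0 < ε) (hε1 : ε < 1) :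
    ∃ δ : ℝ, 0 < δ ∧ ∀ᶠ n : ℕ in atTop, ∀ c : ℂ,
      ‖c - c₀‖ ≤ Real.exp (-((Real.log d - δ) * n)) →
      ∀ r : ℝ, Real.exp (-((1 - ε) * Real.log d * n)) ≤ r → r ≤ 1 →
        Real.exp (-(ε * Real.log d * n)) * r ^ (2 * d / ((d : ℝ) - 1)) ≤
          (volume (S ∩ ball c r)).toReal ∧
        (volume (S ∩ ball c r)).toReal ≤
          Real.exp (ε * Real.log d * n) * r ^ (2 * d / ((d : ℝ) - 1)) := by
  have hχ := h.1
  have hdR : (2 : ℝ) ≤ d := by exact_mod_cast hd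
  have hd1 : 0 < (d : ℝ) - 1 := by linarith
  have hκ : 0 < 2 * d / ((d : ℝ) - 1) := by positivity
  have hfin : volume S ≠ ⊤ := ((measure_mono hS).trans_lt measure_closedBall_lt_top).ne
  apply near_law (F := fun c r => (volume (S ∩ ball c r)).toReal) (V := (volume S).toReal) hχ hκ
    _ _ _ hε hε1
  · intro c c' r s hrs
    exact ENNReal.toReal_mono (ne_top_of_le_ne_top hfin (measure_mono inter_subset_left))
      (measure_mono (inter_subset_inter_right _ hrs))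
  · intro c r
    exact ENNReal.toReal_mono hfin (measure_mono inter_subset_left)
  · intro e he _
    refine law_of_log ?_ hlim he
    filter_upwards [hlim.eventually_const_lt hκ] with r hr
    rcases ENNReal.toReal_nonneg.eq_or_lt with h0 | h0
    · rw [← h0, Real.log_zero, zero_div] at hr
      exact absurd hr (lt_irrefl _)
    · exact h0

theorem near_area (hd : 2 ≤ d) {c₀ : ℂ} (h : Lyap d (Real.log d) c₀) {ε : ℝ} (hε : 0 < ε)
    (hε1 : ε < 1) :
    ∃ δ : ℝ, 0 < δ ∧ ∀ᶠ n : ℕ in atTop, ∀ c : ℂ,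
      ‖c - c₀‖ ≤ Real.exp (-((Real.log d - δ) * n)) →
      ∀ r : ℝ, Real.exp (-((1 - ε) * Real.log d * n)) ≤ r → r ≤ 1 →
        Real.exp (-(ε * Real.log d * n)) * r ^ (2 * d / ((d : ℝ) - 1)) ≤
          (volume (HH d ∩ ball c r)).toReal ∧
        (volume (N62a1eb23.multibrotSet d ∩ ball c r)).toReal ≤
          Real.exp (ε * Real.log d * n) * r ^ (2 * d / ((d : ℝ) - 1)) := by
  have hs := scal_all hd h
  have hsub : HH d ⊆ closedBall 0 2 := fun c hc => mb_sub hd hc.1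
  obtain ⟨δ₁, hδ₁, H₁⟩ := near_area_gen hd h hsub hs.areaH hε hε1
  obtain ⟨δ₂, hδ₂, H₂⟩ := near_area_gen hd h (mb_sub hd) hs.areaM hε hε1
  refine ⟨min δ₁ δ₂, lt_min hδ₁ hδ₂, ?_⟩
  filter_upwards [H₁, H₂] with n hn1 hn2 c hc r hr1 hr2
  have hn0 : (0 : ℝ) ≤ n := Nat.cast_nonneg n
  refine ⟨(hn1 c (hc.trans ?_) r hr1 hr2).1, (hn2 c (hc.trans ?_) r hr1 hr2).2⟩
  · apply Real.exp_le_exp.2
    have : (Real.log d - δ₁) * n ≤ (Real.log d - min δ₁ δ₂) * n := by
      gcongr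
      exact min_le_left _ _
    linarith
  · apply Real.exp_le_exp.2
    have : (Real.log d - δ₂) * n ≤ (Real.log d - min δ₁ δ₂) * n := by
      gcongr
      exact min_le_right _ _
    linarith

/-- the centres of exact period `n` and all centres -/
theorem card_tendsto (hd : 2 ≤ d) :
    Tendsto (fun n : ℕ => ((Cn d n).ncard : ℝ) / (d : ℝ) ^ (n - 1)) atTop (𝓝 1) := by
  obtain ⟨β, hβ⟩ := Pool.Agent.H713R2.exists_beta (d := d) hd
  have hψ := Pool.Agent.H713R2.exteriorMap_of_beta hβ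
  have hd0 : (0 : ℝ) < d := by exact_mod_cast (by omega : 0 < d)
  rw [Metric.tendsto_atTop']
  intro η hη
  have h1 := most hd hψ (fun _ _ => True) (Eventually.of_forall fun θ => ⟨1, one_pos,
    Eventually.of_forall fun n c _ _ => trivial⟩) (half_pos hη)
  obtain ⟨N, hN⟩ := eventually_atTop.1 (h1.and (eventually_ge_atTop 1))
  refine ⟨N, fun n hn => ?_⟩
  obtain ⟨h2, h3⟩ := hN n hn.le
  have e1 : {c | c ∈ Cn d n ∧ True} = Cn d n := by ext c; simp
  rw [e1] at h2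
  have h4 := Cn_card hd h3
  have hp : (0 : ℝ) < (d : ℝ) ^ (n - 1) := by positivity
  rw [Real.dist_eq, abs_lt]
  constructor
  · have : 1 - η / 2 ≤ ((Cn d n).ncard : ℝ) / (d : ℝ) ^ (n - 1) := by
      rw [le_div_iff₀ hp]
      exact h2
    linarith
  · have : ((Cn d n).ncard : ℝ) / (d : ℝ) ^ (n - 1) ≤ 1 := by
      rw [div_le_one hp]
      exact h4
    linarith

/-- the transfer principle, as a limit -/
theorem most_tendsto (hd : 2 ≤ d) (hψ : IsExteriorMap (N62a1eb23.multibrotSet d) ψ)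
    (Q : ℕ → ℂ → Prop)
    (hQ : ∀ᵐ θ : ℝ, ∃ δ : ℝ, 0 < δ ∧ ∀ᶠ n : ℕ in atTop, ∀ c ∈ Cn d n,
      ‖c - bd ψ θ‖ ≤ Real.exp (-((Real.log d - δ) * n)) → Q n c) :
    Tendsto (fun n : ℕ => ({c | c ∈ Cn d n ∧ Q n c}.ncard : ℝ) / (Cn d n).ncard) atTop (𝓝 1) := by
  have hd0 : (0 : ℝ) < d := by exact_mod_cast (by omega : 0 < d)
  rw [Metric.tendsto_atTop']
  intro η hη
  have h1 := most hd hψ Q hQ (half_pos hη)
  have h0 := (card_tendsto hd).eventually_const_lt one_half_lt_one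
  obtain ⟨N, hN⟩ := eventually_atTop.1 (h1.and (h0.and (eventually_ge_atTop 1)))
  refine ⟨N, fun n hn => ?_⟩
  obtain ⟨h2, h5, h3⟩ := hN n hn.le
  have h4 := Cn_card hd h3
  have hp : (0 : ℝ) < (d : ℝ) ^ (n - 1) := by positivity
  rw [lt_div_iff₀ hp] at h5
  have hC : (0 : ℝ) < (Cn d n).ncard := by
    have : (0 : ℝ) < 1 / 2 * (d : ℝ) ^ (n - 1) := by positivity
    linarith
  rw [Real.dist_eq, abs_lt]
  have hle : ({c | c ∈ Cn d n ∧ Q n c}.ncard : ℝ) ≤ (Cn d n).ncard := by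
    have h6 : {c | c ∈ Cn d n ∧ Q n c} ⊆ Cn d n := fun c hc => hc.1
    exact_mod_cast ncard_le_ncard h6 (Cn_fin hd h3)
  constructor
  · have : 1 - η / 2 ≤ ({c | c ∈ Cn d n ∧ Q n c}.ncard : ℝ) / (Cn d n).ncard ∨ 1 - η / 2 < 0 := by
      by_cases hneg : 1 - η / 2 < 0
      · exact Or.inr hneg
      · left
        push Not at hneg
        rw [le_div_iff₀ hC]
        calc (1 - η / 2) * (Cn d n).ncard ≤ (1 - η / 2) * (d : ℝ) ^ (n - 1) := by gcongr
          _ ≤ _ := h2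
    rcases this with h6 | h6
    · linarith
    · have : (0 : ℝ) ≤ ({c | c ∈ Cn d n ∧ Q n c}.ncard : ℝ) / (Cn d n).ncard := by positivity
      linarith
  · have : ({c | c ∈ Cn d n ∧ Q n c}.ncard : ℝ) / (Cn d n).ncard ≤ 1 := by
      rw [div_le_one hC]
      exact hle
    linarith

end Pool.Agent.N772.TC
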