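import Pool.Agent.N772.TC.Cov

/-!
# Counting points near most points of a measure, from a local lower law
-/

set_option autoImplicit false

open Set Metric MeasureTheory Filter Topology

namespace Pool.Agent.N772.TC

theorem ev_lin {a : ℝ} (ha : 0 < a) (b : ℝ) : ∀ᶠ n : ℕ in atTop, b < a * n := by
  have h1 : Tendsto (fun n : ℕ => a * (n : ℝ)) atTop atTop :=
    (tendsto_natCast_atTop_atTop).const_mul_atTop ha
  exact h1.eventually_gt_atTop b

theorem ev_sq {a : ℝ} (ha : 0 < a) (B : ℝ) : ∀ᶠ n : ℕ in atTop,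
    B * (n : ℝ) ^ 2 ≤ Real.exp (a * n) := by
  have h1 : Tendsto (fun x : ℝ => Real.exp (a * x) / x ^ 2) atTop atTop := by
    have h2 : Tendsto (fun x : ℝ => Real.exp x / x ^ 2) atTop atTop :=
      Real.tendsto_exp_div_pow_atTop 2
    have h3 : Tendsto (fun x : ℝ => a * x) atTop atTop := tendsto_id.const_mul_atTop ha
    have h4 := (h2.comp h3).const_mul_atTop (show 0 < a ^ 2 by positivity)
    refine h4.congr' ?_
    filter_upwards [eventually_gt_atTop 0] with x hx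
    simp only [Function.comp_apply]
    field_simp
  have h2 := (h1.comp (tendsto_natCast_atTop_atTop (R := ℝ))).eventually_ge_atTop B
  filter_upwards [h2, eventually_gt_atTop 0] with n hn hn0
  have hn1 : (0 : ℝ) < n := by exact_mod_cast hn0
  simp only [Function.comp_apply] at hn
  rwa [le_div_iff₀ (by positivity)] at hn

/-- **Counting.** -/
theorem count {ν : Measure ℂ} [IsFiniteMeasure ν] {χ δ₀ η K c₁ V : ℝ} (hδ₀ : 0 < δ₀)
    (hδχ : δ₀ ≤ χ) (hη : 0 < η) (hη1 : η < 1 / 5) (hK : 0 ≤ K) (hc₁ : 0 < c₁)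
    (hV : (ν univ).toReal = V) (hV0 : 0 < V) (C G : ℕ → Set ℂ) (hCf : ∀ n, 1 ≤ n → (C n).Finite)
    (hGC : ∀ n, G n ⊆ C n) (κ : ℕ → ℝ) (hκ : Tendsto κ atTop (𝓝 0)) (MM : Set ℂ)
    (law : ∀ n : ℕ, 1 ≤ n → ∀ x ∈ MM, ∀ r δ : ℝ, 0 < r → 0 < δ → δ ≤ 1 →
      (1 - κ n) * (c₁ * Real.exp (χ * n) * (ν (ball x r)).toReal) ≤
        ((C n ∩ ball x ((1 + δ) * r)).ncard : ℝ) + K * n ^ 2 / δ)
    (S : ℕ → Set ℂ)
    (hS : ∀ᶠ n : ℕ in atTop, ∀ x ∈ S n, x ∈ MM ∧
      (∀ c ∈ C n, ‖c - x‖ ≤ Real.exp (-((χ - δ₀) * n)) → c ∈ G n) ∧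
      Real.exp (-((χ - δ₀ / 4) * n)) ≤ (ν (ball x (Real.exp (-((χ - δ₀ / 2) * n))))).toReal)
    (hν : ∀ᶠ n : ℕ in atTop, (1 - η) * V ≤ (ν (S n)).toReal) :
    ∀ᶠ n : ℕ in atTop, (1 - 5 * η) * (c₁ * V * Real.exp (χ * n)) ≤ ((G n).ncard : ℝ) := by
  classical
  have hχ : 0 < χ := hδ₀.trans_le hδχ
  obtain ⟨N, τ, hτ, hN⟩ := HasBesicovitchCovering.no_satelliteConfig (α := ℂ)
  -- the number of scales
  obtain ⟨k, hk⟩ : ∃ k : ℕ, ((N : ℝ) / (N + 1)) ^ k < η := by
    apply exists_pow_lt_of_lt_one hη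
    rw [div_lt_one (by positivity)]
    linarith
  -- the parameters
  obtain ⟨ε₁, hε₁⟩ : ∃ ε₁ : ℝ, ε₁ = δ₀ / (8 * (k + 1)) := ⟨_, rfl⟩
  have hk0 : (0 : ℝ) ≤ k := Nat.cast_nonneg k
  have hε₁0 : 0 < ε₁ := by rw [hε₁]; positivity
  have hkε : (k + 1) * ε₁ = δ₀ / 8 := by rw [hε₁]; field_simp
  have hlη : 0 < Real.log (1 + η) := Real.log_pos (by linarith)
  obtain ⟨A, hA⟩ : ∃ A : ℝ, A = 2 * χ / Real.log (1 + η) := ⟨_, rfl⟩
  have hA0 : 0 < A := by rw [hA]; positivity
  obtain ⟨δ, hδ⟩ : ∃ δ : ℝ, δ = min 1 (ε₁ / (3 * (A + 1))) := ⟨_, rfl⟩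
  have hδ0 : 0 < δ := by rw [hδ]; exact lt_min one_pos (by positivity)
  have hδ1 : δ ≤ 1 := by rw [hδ]; exact min_le_left _ _
  have hδε : 3 * δ * (A + 1) ≤ ε₁ := by
    have : δ ≤ ε₁ / (3 * (A + 1)) := by rw [hδ]; exact min_le_right _ _
    rw [le_div_iff₀ (by positivity)] at this
    linarith
  have hκη : ∀ᶠ n : ℕ in atTop, κ n < η := hκ.eventually_lt_const hη
  filter_upwards [hS, hν, hκη, eventually_ge_atTop 1, ev_lin hχ (Real.log V),
    ev_lin hε₁0 (-Real.log δ), ev_lin (show 0 < δ₀ / 4 by positivity) (Real.log 4),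
    ev_sq (show 0 < δ₀ / 4 by positivity) (V * K / δ / (η * c₁ * V))] with n hSn hνn hκn hn1 hn2 hn3
      hn4 hn5
  have hn0 : (1 : ℝ) ≤ n := by exact_mod_cast hn1
  have hn00 : (0 : ℝ) < n := by linarith
  -- the bases of the scales
  obtain ⟨a, ha⟩ : ∃ a : ℕ → ℝ, ∀ j, a j = Real.exp (-((χ - δ₀ / 2) * n) + 2 * ε₁ * (k - j) * n) :=
    ⟨_, fun _ => rfl⟩
  have ha0 : ∀ j, 0 < a j := fun j => by rw [ha]; exact Real.exp_pos _
  have hbase : ∀ j < k, Real.exp (-((χ - δ₀ / 2) * n)) ≤ a j := by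
    intro j hj
    rw [ha]
    apply Real.exp_le_exp.2
    have h1 : (j : ℝ) ≤ k := by exact_mod_cast hj.le
    have : 0 ≤ 2 * ε₁ * (k - j) * n := by
      have : (0 : ℝ) ≤ k - j := by linarith
      positivity
    linarith
  obtain ⟨L, hL⟩ : ∃ L : ℕ, L = ⌈A * n⌉₊ := ⟨_, rfl⟩
  have hL1 : A * n ≤ L := by rw [hL]; exact Nat.le_ceil _
  have hL2 : (L : ℝ) ≤ (A + 1) * n := by
    have := Nat.ceil_lt_add_one (show 0 ≤ A * n by positivity)
    rw [← hL] at this
    nlinarith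
  have hLpow : (1 + δ) ^ (3 * L) ≤ Real.exp (ε₁ * n) := by
    have h1 : 1 + δ ≤ Real.exp δ := by have := Real.add_one_le_exp δ; linarith
    calc (1 + δ) ^ (3 * L) ≤ Real.exp δ ^ (3 * L) := by gcongr
      _ = Real.exp (3 * L * δ) := by rw [← Real.exp_nat_mul]; push_cast; ring_nf
      _ ≤ _ := by
        apply Real.exp_le_exp.2
        calc 3 * L * δ ≤ 3 * ((A + 1) * n) * δ := by gcongr
          _ = (3 * δ * (A + 1)) * n := by ring
          _ ≤ ε₁ * n := by gcongr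
  have hgrow : V < (1 + η) ^ L * Real.exp (-((χ - δ₀ / 4) * n)) := by
    have h1 : Real.exp (2 * χ * n) ≤ (1 + η) ^ L := by
      have h2 : (1 + η) ^ L = Real.exp (L * Real.log (1 + η)) := by
        rw [Real.exp_nat_mul, Real.exp_log (by linarith)]
      rw [h2]
      apply Real.exp_le_exp.2
      calc 2 * χ * n = A * n * Real.log (1 + η) := by rw [hA]; field_simp
        _ ≤ _ := by gcongr
    calc V = Real.exp (Real.log V) := (Real.exp_log hV0).symm
      _ < Real.exp (χ * n) := Real.exp_lt_exp.2 hn2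
      _ = Real.exp (2 * χ * n) * Real.exp (-(χ * n)) := by rw [← Real.exp_add]; congr 1; ring
      _ ≤ Real.exp (2 * χ * n) * Real.exp (-((χ - δ₀ / 4) * n)) := by
        gcongr
        have : 0 ≤ δ₀ / 4 * n := by positivity
        linarith
      _ ≤ _ := by gcongr
  -- the radii
  have hrad : ∀ j, ∀ x, ∃ ρ : ℝ, (j < k → x ∈ S n → a j ≤ ρ ∧ ρ ≤ a j * Real.exp (ε₁ * n) ∧
      (ν (closedBall x ((1 + δ) ^ 2 * ρ))).toReal ≤ (1 + η) * (ν (ball x ρ)).toReal) := by
    intro j x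
    by_cases hjx : j < k ∧ x ∈ S n
    · obtain ⟨hj, hx⟩ := hjx
      have hm : Real.exp (-((χ - δ₀ / 4) * n)) ≤ (ν (ball x (a j))).toReal := by
        refine (hSn x hx).2.2.trans ?_
        apply ENNReal.toReal_mono (measure_ne_top _ _)
        exact measure_mono (ball_subset_ball (hbase j hj))
      obtain ⟨ρ, h1, h2, h3⟩ := pick_ball (ν := ν) (x := x) (V := V) (ha0 j) hδ0 hη hV.le (L := L)
        (hgrow.trans_le (by gcongr))
      refine ⟨ρ, fun _ _ => ⟨h1, h2.trans ?_, h3⟩⟩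
      have := ha0 j
      gcongr
    · exact ⟨0, fun hj hx => absurd ⟨hj, hx⟩ hjx⟩
  choose r hr using hrad
  have hr0 : ∀ j < k, ∀ x ∈ S n, 0 < r j x := fun j hj x hx => (ha0 j).trans_le (hr j x hj hx).1
  -- the radii are small
  have hrs : ∀ j < k, ∀ x ∈ S n, (1 + δ) * r j x ≤ Real.exp (-((χ - δ₀) * n)) := by
    intro j hj x hx
    have h1 := (hr j x hj hx).2.1
    have hj0 : (0 : ℝ) ≤ j := Nat.cast_nonneg j
    calc (1 + δ) * r j x ≤ 2 * (a j * Real.exp (ε₁ * n)) := by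
          have := hr0 j hj x hx
          gcongr
          linarith
      _ ≤ Real.exp (Real.log 4) * (a j * Real.exp (ε₁ * n)) := by
          have h2 : 0 < a j * Real.exp (ε₁ * n) := by have := ha0 j; positivity
          rw [Real.exp_log (by norm_num)]
          nlinarith
      _ = Real.exp (Real.log 4 + ((-((χ - δ₀ / 2) * n) + 2 * ε₁ * (k - j) * n) + ε₁ * n)) := by
          rw [ha, Real.exp_add (Real.log 4), Real.exp_add _ (ε₁ * n)]
      _ ≤ _ := by
          apply Real.exp_le_exp.2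
          have h3 : 2 * ε₁ * (k - j) * n + ε₁ * n ≤ 2 * ((k + 1) * ε₁) * n := by
            have e : 2 * ((k + 1) * ε₁) * n - (2 * ε₁ * (k - j) * n + ε₁ * n) =
              (2 * ε₁ * j + ε₁) * n := by ring
            have : 0 ≤ (2 * ε₁ * j + ε₁) * n := by positivity
            linarith
          rw [hkε] at h3
          nlinarith
  have hone : Real.exp (-((χ - δ₀) * n)) ≤ 1 := by
    rw [Real.exp_le_one_iff]
    have : 0 ≤ (χ - δ₀) * n := mul_nonneg (by linarith) hn00.le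
    linarith
  have hδn : Real.exp (-(ε₁ * n)) < δ := by
    rw [← Real.exp_log hδ0]
    apply Real.exp_lt_exp.2
    linarith
  have hrr : ∀ i j, i < j → j < k → ∀ x ∈ S n, ∀ y ∈ S n, r j y < δ * r i x := by
    intro i j hij hj x hx y hy
    have hi : i < k := by omega
    have h1 := (hr j y hj hy).2.1
    have h2 := (hr i x hi hx).1
    have hij' : (i : ℝ) + 1 ≤ j := by exact_mod_cast hij
    have h3 : a j * Real.exp (ε₁ * n) ≤ a i * Real.exp (-(ε₁ * n)) := by
      rw [ha, ha, ← Real.exp_add, ← Real.exp_add]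
      apply Real.exp_le_exp.2
      have h4 : 0 ≤ ε₁ * n * (j - (i + 1)) := mul_nonneg (by positivity) (by linarith)
      have e : (-((χ - δ₀ / 2) * n) + 2 * ε₁ * (k - i) * n + -(ε₁ * n)) -
          (-((χ - δ₀ / 2) * n) + 2 * ε₁ * (k - j) * n + ε₁ * n) =
          2 * (ε₁ * n * (j - (i + 1))) := by ring
      linarith
    calc r j y ≤ a j * Real.exp (ε₁ * n) := h1
      _ ≤ a i * Real.exp (-(ε₁ * n)) := h3
      _ < a i * δ := by have := ha0 i; gcongr
      _ ≤ r i x * δ := by gcongr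
      _ = _ := by ring
  obtain ⟨T, hT1, hT2, hT3⟩ := cover (ν := ν) hτ hN hδ0 (S n) r hr0
    (fun j hj x hx => (hrs j hj x hx).trans hone) hrr k le_rfl
  have hTk : ∀ p ∈ T, p.1 < k ∧ p.2 ∈ S n := hT1
  -- the measure which is captured
  have hcap : (1 - 2 * η) * V ≤ (1 + η) * ∑ p ∈ T, (ν (ball p.2 (r p.1 p.2))).toReal := by
    have h1 : (ν (S n)).toReal ≤
        (ν (S n \ ⋃ p ∈ T, closedBall p.2 ((1 + δ) ^ 2 * r p.1 p.2))).toReal +
        ∑ p ∈ T, (ν (closedBall p.2 ((1 + δ) ^ 2 * r p.1 p.2))).toReal := by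
      have h2 : ν (S n) ≤ ν (S n \ ⋃ p ∈ T, closedBall p.2 ((1 + δ) ^ 2 * r p.1 p.2)) +
          ∑ p ∈ T, ν (closedBall p.2 ((1 + δ) ^ 2 * r p.1 p.2)) := by
        calc ν (S n) ≤ ν ((S n \ ⋃ p ∈ T, closedBall p.2 ((1 + δ) ^ 2 * r p.1 p.2)) ∪
              ⋃ p ∈ T, closedBall p.2 ((1 + δ) ^ 2 * r p.1 p.2)) := by
              apply measure_mono
              intro x hx
              by_cases h : x ∈ ⋃ p ∈ T, closedBall p.2 ((1 + δ) ^ 2 * r p.1 p.2)
              · exact Or.inr h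
              · exact Or.inl ⟨hx, h⟩
          _ ≤ _ := measure_union_le _ _
          _ ≤ _ := by gcongr; exact measure_biUnion_finset_le _ _
      have h3 := ENNReal.toReal_mono (by
        apply ENNReal.add_ne_top.2
        exact ⟨measure_ne_top _ _, ENNReal.sum_ne_top.2 fun p _ => measure_ne_top _ _⟩) h2
      rw [ENNReal.toReal_add (measure_ne_top _ _) (ENNReal.sum_ne_top.2 fun p _ =>
        measure_ne_top _ _), ENNReal.toReal_sum (fun p _ => measure_ne_top _ _)] at h3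
      exact h3
    have h4 : (ν (S n \ ⋃ p ∈ T, closedBall p.2 ((1 + δ) ^ 2 * r p.1 p.2))).toReal ≤ η * V := by
      have h5 := ENNReal.toReal_mono (ENNReal.mul_ne_top (ENNReal.pow_ne_top (by
        apply ENNReal.div_ne_top (ENNReal.natCast_ne_top N)
        simp)) (measure_ne_top _ _)) hT3
      rw [ENNReal.toReal_mul, ENNReal.toReal_pow, ENNReal.toReal_div, ENNReal.toReal_natCast,
        ENNReal.toReal_add (ENNReal.natCast_ne_top N) ENNReal.one_ne_top, ENNReal.toReal_natCast,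
        ENNReal.toReal_one] at h5
      refine h5.trans ?_
      have h6 : (ν (S n)).toReal ≤ V := by
        rw [← hV]
        exact ENNReal.toReal_mono (measure_ne_top _ _) (measure_mono (subset_univ _))
      gcongr
    have h7 : ∑ p ∈ T, (ν (closedBall p.2 ((1 + δ) ^ 2 * r p.1 p.2))).toReal ≤
        (1 + η) * ∑ p ∈ T, (ν (ball p.2 (r p.1 p.2))).toReal := by
      rw [Finset.mul_sum]
      exact Finset.sum_le_sum fun p hp => (hr p.1 p.2 (hTk p hp).1 (hTk p hp).2).2.2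
    nlinarith
  -- the number of the balls
  have hcard : (T.card : ℝ) ≤ V * Real.exp ((χ - δ₀ / 4) * n) := by
    have h1 : ∑ p ∈ T, (ν (closedBall p.2 ((1 + δ) * r p.1 p.2))).toReal ≤ V := by
      rw [← ENNReal.toReal_sum (fun p _ => measure_ne_top _ _), ← hV]
      apply ENNReal.toReal_mono (measure_ne_top _ _)
      rw [← measure_biUnion_finset hT2 (fun p _ => isClosed_closedBall.measurableSet)]
      exact measure_mono (subset_univ _)
    have h2 : ∀ p ∈ T, Real.exp (-((χ - δ₀ / 4) * n)) ≤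
        (ν (closedBall p.2 ((1 + δ) * r p.1 p.2))).toReal := by
      intro p hp
      obtain ⟨h3, h4⟩ := hTk p hp
      refine (hSn p.2 h4).2.2.trans ?_
      apply ENNReal.toReal_mono (measure_ne_top _ _)
      apply measure_mono
      refine ball_subset_closedBall.trans (closedBall_subset_closedBall ?_)
      have h5 := (hbase p.1 h3).trans (hr p.1 p.2 h3 h4).1
      have h6 := hr0 p.1 h3 p.2 h4
      nlinarith
    have h3 := Finset.sum_le_sum h2
    rw [Finset.sum_const, nsmul_eq_mul] at h3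
    have h4 : (T.card : ℝ) * Real.exp (-((χ - δ₀ / 4) * n)) ≤ V := h3.trans h1
    rw [Real.exp_neg, ← div_eq_mul_inv, div_le_iff₀ (Real.exp_pos _)] at h4
    exact h4
  -- the points which are counted
  have hpts : ∑ p ∈ T, ((C n ∩ ball p.2 ((1 + δ) * r p.1 p.2)).ncard : ℝ) ≤ (G n).ncard := by
    have hfin : ∀ p ∈ T, (C n ∩ ball p.2 ((1 + δ) * r p.1 p.2)).Finite := fun p _ =>
      (hCf n hn1).subset inter_subset_left
    have h1 : ∑ p ∈ T, (C n ∩ ball p.2 ((1 + δ) * r p.1 p.2)).ncard =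
        (⋃ p ∈ T, (C n ∩ ball p.2 ((1 + δ) * r p.1 p.2))).ncard := by
      clear hcap hcard hT3
      induction T using Finset.induction_on with
      | empty => simp
      | insert p T hp ih =>
        have hf1 := hfin p (Finset.mem_insert_self _ _)
        have hf2 : (⋃ q ∈ T, (C n ∩ ball q.2 ((1 + δ) * r q.1 q.2))).Finite :=
          Set.Finite.biUnion T.finite_toSet
            (fun q hq => hfin q (Finset.mem_insert_of_mem (Finset.mem_coe.1 hq)))
        have hdj : Disjoint (C n ∩ ball p.2 ((1 + δ) * r p.1 p.2))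
            (⋃ q ∈ T, (C n ∩ ball q.2 ((1 + δ) * r q.1 q.2))) := by
          rw [Set.disjoint_left]
          intro x hx hx2
          obtain ⟨q, hq, hx3⟩ := mem_iUnion₂.1 hx2
          have hpq : p ≠ q := fun h => hp (h ▸ hq)
          have h4 := hT2 (Finset.mem_coe.2 (Finset.mem_insert_self p T))
            (Finset.mem_coe.2 (Finset.mem_insert_of_mem hq)) hpq
          exact Set.disjoint_left.1 h4 (ball_subset_closedBall hx.2) (ball_subset_closedBall hx3.2)
        rw [Finset.sum_insert hp, Finset.set_biUnion_insert, ncard_union_eq hdj hf1 hf2,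
          ih (fun q hq => hT1 q (Finset.mem_insert_of_mem hq))
            (hT2.subset (by rw [Finset.coe_insert]; exact subset_insert _ _))
            (fun q hq => hTk q (Finset.mem_insert_of_mem hq))
            (fun q hq => hfin q (Finset.mem_insert_of_mem hq))]
    have h2 : (⋃ p ∈ T, (C n ∩ ball p.2 ((1 + δ) * r p.1 p.2))).ncard ≤ (G n).ncard := by
      apply ncard_le_ncard _ ((hCf n hn1).subset (hGC n))
      intro c hc
      obtain ⟨p, hp, hc1, hc2⟩ := mem_iUnion₂.1 hc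
      obtain ⟨h3, h4⟩ := hTk p hp
      apply (hSn p.2 h4).2.1 c hc1
      rw [mem_ball, dist_eq_norm] at hc2
      exact hc2.le.trans (hrs p.1 h3 p.2 h4)
    calc ∑ p ∈ T, ((C n ∩ ball p.2 ((1 + δ) * r p.1 p.2)).ncard : ℝ) =
        ((∑ p ∈ T, (C n ∩ ball p.2 ((1 + δ) * r p.1 p.2)).ncard : ℕ) : ℝ) := by push_cast; rfl
      _ ≤ _ := by rw [h1]; exact_mod_cast h2
  -- the law
  have hlaw : (1 - κ n) * (c₁ * Real.exp (χ * n) * ∑ p ∈ T, (ν (ball p.2 (r p.1 p.2))).toReal) ≤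
      (G n).ncard + T.card * (K * n ^ 2 / δ) := by
    calc _ = ∑ p ∈ T, (1 - κ n) * (c₁ * Real.exp (χ * n) * (ν (ball p.2 (r p.1 p.2))).toReal) := by
          rw [← Finset.mul_sum, ← Finset.mul_sum]
      _ ≤ ∑ p ∈ T, (((C n ∩ ball p.2 ((1 + δ) * r p.1 p.2)).ncard : ℝ) + K * n ^ 2 / δ) := by
          apply Finset.sum_le_sum
          intro p hp
          obtain ⟨h3, h4⟩ := hTk p hp
          exact law n hn1 p.2 (hSn p.2 h4).1 _ δ (hr0 p.1 h3 p.2 h4) hδ0 hδ1
      _ ≤ _ := by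
          rw [Finset.sum_add_distrib, Finset.sum_const, nsmul_eq_mul]
          gcongr
  obtain ⟨Z, hZ⟩ : ∃ Z : ℝ, Z = ∑ p ∈ T, (ν (ball p.2 (r p.1 p.2))).toReal := ⟨_, rfl⟩
  rw [← hZ] at hcap hlaw
  obtain ⟨E, hE⟩ : ∃ E : ℝ, E = Real.exp (χ * n) := ⟨_, rfl⟩
  have hE0 : 0 < E := by rw [hE]; exact Real.exp_pos _
  rw [← hE] at hlaw ⊢
  have herr : (T.card : ℝ) * (K * n ^ 2 / δ) ≤ η * c₁ * V * E := by
    have h1 : (T.card : ℝ) * (K * n ^ 2 / δ) ≤
        V * Real.exp ((χ - δ₀ / 4) * n) * (K * n ^ 2 / δ) := by gcongr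
    refine h1.trans ?_
    have h2 : V * Real.exp ((χ - δ₀ / 4) * n) * (K * n ^ 2 / δ) =
        η * c₁ * V * Real.exp ((χ - δ₀ / 4) * n) * (V * K / δ / (η * c₁ * V) * (n : ℝ) ^ 2) := by
      field_simp
    rw [h2]
    calc _ ≤ η * c₁ * V * Real.exp ((χ - δ₀ / 4) * n) * Real.exp (δ₀ / 4 * n) := by gcongr
      _ = η * c₁ * V * (Real.exp ((χ - δ₀ / 4) * n) * Real.exp (δ₀ / 4 * n)) := by ring
      _ = _ := by rw [← Real.exp_add, hE]; congr 2; ring
  have hZ0 : (1 - 3 * η) * V ≤ Z := by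
    by_contra hcon
    push Not at hcon
    have h1 : (1 + η) * Z < (1 + η) * ((1 - 3 * η) * V) := by
      have : 0 < 1 + η := by linarith
      gcongr
    nlinarith [mul_pos hη hV0, mul_pos (mul_pos hη hη) hV0]
  have hfin : (1 - 4 * η) * (c₁ * E * V) ≤ (1 - κ n) * (c₁ * E * Z) := by
    calc (1 - 4 * η) * (c₁ * E * V) ≤ (1 - η) * ((1 - 3 * η) * (c₁ * E * V)) := by
          have : 0 < c₁ * E * V := by positivity
          nlinarith [mul_pos (mul_pos hη hη) this]
      _ = (1 - η) * (c₁ * E * ((1 - 3 * η) * V)) := by ring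
      _ ≤ (1 - η) * (c₁ * E * Z) := by
          have : 0 < 1 - η := by linarith
          gcongr
      _ ≤ _ := by
          have h2 : 0 ≤ Z := by
            refine le_trans ?_ hZ0
            have : 0 < 1 - 3 * η := by linarith
            positivity
          gcongr
  have h10 : (1 - 5 * η) * (c₁ * V * E) = (1 - 4 * η) * (c₁ * E * V) - η * c₁ * V * E := by ring
  rw [h10]
  linarith

end Pool.Agent.N772.TC
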