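import Mathlib

/-!
# A Besicovitch covering with finitely many scales
-/

set_option autoImplicit false

open Set Metric MeasureTheory Filter Topology

namespace Pool.Agent.N772.TC

/-- Disjoint balls at `k` scales which cover a set up to a small measure. -/
theorem cover {ν : Measure ℂ} [IsFiniteMeasure ν] {N : ℕ} {τ : ℝ} (hτ : 1 < τ)
    (hN : IsEmpty (Besicovitch.SatelliteConfig ℂ N τ)) {δ : ℝ} (hδ : 0 < δ) (S : Set ℂ)
    (r : ℕ → ℂ → ℝ) {K : ℕ} (hr0 : ∀ j < K, ∀ x ∈ S, 0 < r j x)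
    (hr1 : ∀ j < K, ∀ x ∈ S, (1 + δ) * r j x ≤ 1)
    (hrr : ∀ i j, i < j → j < K → ∀ x ∈ S, ∀ y ∈ S, r j y < δ * r i x) (k : ℕ) (hk : k ≤ K) :
    ∃ T : Finset (ℕ × ℂ), (∀ p ∈ T, p.1 < k ∧ p.2 ∈ S) ∧
      (T : Set (ℕ × ℂ)).PairwiseDisjoint (fun p => closedBall p.2 ((1 + δ) * r p.1 p.2)) ∧
      ν (S \ ⋃ p ∈ T, closedBall p.2 ((1 + δ) ^ 2 * r p.1 p.2)) ≤
        ((N : ENNReal) / (N + 1)) ^ k * ν S := by
  classical
  induction k with
  | zero => exact ⟨∅, by simp, by simp, by simp⟩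
  | succ k ih =>
    obtain ⟨T, h1, h2, h3⟩ := ih (by omega)
    set S' := S \ ⋃ p ∈ T, closedBall p.2 ((1 + δ) ^ 2 * r p.1 p.2) with hS'
    have hSS : S' ⊆ S := sdiff_subset
    obtain ⟨t, ht, ht2, ht3⟩ := Besicovitch.exist_finset_disjoint_balls_large_measure ν hτ hN S'
      (fun x => (1 + δ) * r k x) (fun x hx => by have := hr0 k (by omega) x (hSS hx); positivity)
      (fun x hx => hr1 k (by omega) x (hSS hx))
    refine ⟨T ∪ t.image (fun x => (k, x)), ?_, ?_, ?_⟩
    · intro p hp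
      rcases Finset.mem_union.1 hp with hp | hp
      · exact ⟨(h1 p hp).1.trans (Nat.lt_succ_self k), (h1 p hp).2⟩
      · obtain ⟨x, hx, rfl⟩ := Finset.mem_image.1 hp
        exact ⟨Nat.lt_succ_self k, hSS (ht hx)⟩
    · have key : ∀ p ∈ T, ∀ x ∈ t, Disjoint (closedBall p.2 ((1 + δ) * r p.1 p.2))
          (closedBall x ((1 + δ) * r k x)) := by
        intro p hp x hx
        have hx' := ht hx
        apply closedBall_disjoint_closedBall
        have h4 : x ∉ closedBall p.2 ((1 + δ) ^ 2 * r p.1 p.2) := by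
          intro h5
          exact hx'.2 (mem_iUnion₂.2 ⟨p, hp, h5⟩)
        rw [mem_closedBall, not_le, dist_comm] at h4
        have h5 := hrr p.1 k (h1 p hp).1 (by omega) p.2 (h1 p hp).2 x (hSS hx')
        have h6 : (1 + δ) * r k x < (1 + δ) * (δ * r p.1 p.2) := by
          have : 0 < 1 + δ := by linarith
          gcongr
        calc (1 + δ) * r p.1 p.2 + (1 + δ) * r k x
            < (1 + δ) * r p.1 p.2 + (1 + δ) * (δ * r p.1 p.2) := by linarith
          _ = (1 + δ) ^ 2 * r p.1 p.2 := by ring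
          _ < _ := h4
      intro p hp q hq hpq
      rw [Finset.coe_union, mem_union] at hp hq
      rcases hp with hp | hp <;> rcases hq with hq | hq
      · exact h2 hp hq hpq
      · obtain ⟨x, hx, rfl⟩ := Finset.mem_image.1 hq
        exact key p hp x hx
      · obtain ⟨x, hx, rfl⟩ := Finset.mem_image.1 hp
        exact (key q hq x hx).symm
      · obtain ⟨x, hx, rfl⟩ := Finset.mem_image.1 hp
        obtain ⟨y, hy, rfl⟩ := Finset.mem_image.1 hq
        exact ht3 hx hy (fun h => hpq (by rw [h]))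
    · have h4 : S \ ⋃ p ∈ T ∪ t.image (fun x => (k, x)), closedBall p.2 ((1 + δ) ^ 2 * r p.1 p.2) ⊆
          S' \ ⋃ x ∈ t, closedBall x ((1 + δ) * r k x) := by
        intro x hx
        refine ⟨⟨hx.1, fun h5 => hx.2 ?_⟩, fun h5 => hx.2 ?_⟩
        · obtain ⟨p, hp, h6⟩ := mem_iUnion₂.1 h5
          exact mem_iUnion₂.2 ⟨p, Finset.mem_union_left _ hp, h6⟩
        · obtain ⟨y, hy, h6⟩ := mem_iUnion₂.1 h5
          refine mem_iUnion₂.2 ⟨(k, y), Finset.mem_union_right _ (Finset.mem_image_of_mem _ hy), ?_⟩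
          refine closedBall_subset_closedBall ?_ h6
          have h7 := hr0 k (by omega) y (hSS (ht hy))
          have h8 : 0 < (1 + δ) * r k y := by positivity
          calc (1 + δ) * r k y = 1 * ((1 + δ) * r k y) := by ring
            _ ≤ (1 + δ) * ((1 + δ) * r k y) := by gcongr; linarith
            _ = (1 + δ) ^ 2 * r k y := by ring
      calc _ ≤ ν (S' \ ⋃ x ∈ t, closedBall x ((1 + δ) * r k x)) := measure_mono h4
        _ ≤ N / (N + 1) * ν S' := ht2
        _ ≤ N / (N + 1) * ((N / (N + 1)) ^ k * ν S) := by gcongr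
        _ = _ := by rw [pow_succ]; ring

/-- Pigeonhole: a radius after which the measure of the balls does not grow fast. -/
theorem pick {v : ℕ → ℝ} {η V : ℝ} (hη : 0 < η) {L : ℕ} (hV : v L ≤ V) (h0 : V < (1 + η) ^ L * v 0) :
    ∃ l < L, v (l + 1) ≤ (1 + η) * v l := by
  by_contra hcon
  push Not at hcon
  have h1 : ∀ l ≤ L, (1 + η) ^ l * v 0 ≤ v l := by
    intro l
    induction l with
    | zero => intro _; simp
    | succ l ih =>
      intro hl
      have h2 := ih (by omega)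
      have h3 := hcon l (by omega)
      calc (1 + η) ^ (l + 1) * v 0 = (1 + η) * ((1 + η) ^ l * v 0) := by ring
        _ ≤ (1 + η) * v l := by gcongr
        _ ≤ _ := h3.le
  exact absurd (h1 L le_rfl) (by linarith)

/-- Pigeonhole for the measure of balls. -/
theorem pick_ball {ν : Measure ℂ} [IsFiniteMeasure ν] {x : ℂ} {a δ η V : ℝ} (ha : 0 < a) (hδ : 0 < δ)
    (hη : 0 < η) (hV : (ν univ).toReal ≤ V) {L : ℕ} (h0 : V < (1 + η) ^ L * (ν (ball x a)).toReal) :
    ∃ ρ : ℝ, a ≤ ρ ∧ ρ ≤ a * (1 + δ) ^ (3 * L) ∧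
      (ν (closedBall x ((1 + δ) ^ 2 * ρ))).toReal ≤ (1 + η) * (ν (ball x ρ)).toReal := by
  have h1d : 1 < 1 + δ := by linarith
  obtain ⟨l, hl, h1⟩ := pick (v := fun l => (ν (ball x (a * (1 + δ) ^ (3 * l)))).toReal) (V := V) hη
    (L := L) (le_trans (ENNReal.toReal_mono (measure_ne_top _ _) (measure_mono (subset_univ _))) hV)
    (by simpa using h0)
  refine ⟨a * (1 + δ) ^ (3 * l), ?_, ?_, ?_⟩
  · exact le_mul_of_one_le_right ha.le (one_le_pow₀ h1d.le)
  · have : (1 + δ) ^ (3 * l) ≤ (1 + δ) ^ (3 * L) := pow_le_pow_right₀ h1d.le (by omega)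
    gcongr
  · refine le_trans ?_ h1
    apply ENNReal.toReal_mono (measure_ne_top _ _)
    apply measure_mono
    apply closedBall_subset_ball
    have h2 : 0 < a * (1 + δ) ^ (3 * l) := by positivity
    have e : a * (1 + δ) ^ (3 * (l + 1)) = (1 + δ) ^ 3 * (a * (1 + δ) ^ (3 * l)) := by ring
    rw [e]
    have h3 : (1 + δ) ^ 2 < (1 + δ) ^ 3 := pow_lt_pow_right₀ h1d (by norm_num)
    exact mul_lt_mul_of_pos_right h3 h2

end Pool.Agent.N772.TC
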