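import Pool.Agent.N896.MB.Law
import Pool.Agent.Y736.HG9

/-!
# The harmonic measure of the Multibrot set as a measure
-/

set_option autoImplicit false

open Set Metric MeasureTheory Filter Topology

namespace Pool.Agent.N772.TC

open Pool.Agent.H713R2 (IsExteriorMap)
open Pool.Agent.Y736.HD (Ang)

variable {d : ℕ} {ψ : ℂ → ℂ}

open Classical in
/-- the landing point of an external ray -/
noncomputable def bd (ψ : ℂ → ℂ) (θ : ℝ) : ℂ :=
  if h : ∃ ζ : ℂ, Tendsto (fun ρ : ℝ => ψ (ρ * Complex.exp (θ * Complex.I))) (𝓝[>] 1) (𝓝 ζ) then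
    h.choose else 0

theorem bd_eq {θ : ℝ} {ζ : ℂ}
    (h : Tendsto (fun ρ : ℝ => ψ (ρ * Complex.exp (θ * Complex.I))) (𝓝[>] 1) (𝓝 ζ)) :
    bd ψ θ = ζ := by
  have h1 : ∃ ζ : ℂ, Tendsto (fun ρ : ℝ => ψ (ρ * Complex.exp (θ * Complex.I))) (𝓝[>] 1) (𝓝 ζ) :=
    ⟨ζ, h⟩
  unfold bd
  rw [dif_pos h1]
  exact tendsto_nhds_unique h1.choose_spec h

theorem bd_spec {θ : ℝ} (h1 : ∃ ζ : ℂ,
    Tendsto (fun ρ : ℝ => ψ (ρ * Complex.exp (θ * Complex.I))) (𝓝[>] 1) (𝓝 ζ)) :
    Tendsto (fun ρ : ℝ => ψ (ρ * Complex.exp (θ * Complex.I))) (𝓝[>] 1) (𝓝 (bd ψ θ)) := by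
  unfold bd
  rw [dif_pos h1]
  exact h1.choose_spec

theorem bd_aem (hd : 2 ≤ d) (hψ : IsExteriorMap (N62a1eb23.multibrotSet d) ψ) :
    AEMeasurable (bd ψ) volume := by
  have hlim : Tendsto (fun n : ℕ => (1 + 1 / ((n : ℝ) + 1) : ℝ)) atTop (𝓝[>] 1) := by
    apply tendsto_nhdsWithin_of_tendsto_nhds_of_eventually_within
    · have h1 := tendsto_one_div_add_atTop_nhds_zero_nat (𝕜 := ℝ)
      simpa using h1.const_add 1
    · refine Eventually.of_forall fun n => ?_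
      have : (0 : ℝ) < 1 / ((n : ℝ) + 1) := by positivity
      simp only [mem_Ioi]
      linarith
  apply aemeasurable_of_tendsto_metrizable_ae' (f := fun (n : ℕ) (θ : ℝ) =>
    ψ (((1 + 1 / ((n : ℝ) + 1) : ℝ) : ℂ) * Complex.exp (θ * Complex.I)))
  · intro n
    have hc : Continuous (fun θ : ℝ =>
        ψ (((1 + 1 / ((n : ℝ) + 1) : ℝ) : ℂ) * Complex.exp (θ * Complex.I))) := by
      have h1 : ContinuousOn ψ {z | 1 < ‖z‖} := hψ.diff.continuousOn
      apply h1.comp_continuous (by fun_prop)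
      intro θ
      simp only [mem_setOf_eq, norm_mul, Complex.norm_exp_ofReal_mul_I, mul_one, Complex.norm_real,
        Real.norm_eq_abs]
      have : (0 : ℝ) < 1 / ((n : ℝ) + 1) := by positivity
      rw [abs_of_pos (by linarith)]
      linarith
    exact hc.measurable.aemeasurable
  · filter_upwards [Pool.Agent.Y736.HG.ae_land hd hψ] with θ hθ
    exact (bd_spec hθ).comp hlim

/-- the harmonic measure, of total mass `2π` -/
noncomputable def hm (ψ : ℂ → ℂ) : Measure ℂ :=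
  Measure.map (bd ψ) (volume.restrict (Ioc 0 (2 * Real.pi)))

instance : IsFiniteMeasure (hm ψ) := by
  unfold hm
  infer_instance

theorem hm_univ (hd : 2 ≤ d) (hψ : IsExteriorMap (N62a1eb23.multibrotSet d) ψ) :
    (hm ψ univ).toReal = 2 * Real.pi := by
  unfold hm
  rw [Measure.map_apply_of_aemeasurable (bd_aem hd hψ).restrict MeasurableSet.univ]
  simp [Real.pi_pos.le]

theorem hm_ball (hd : 2 ≤ d) (hψ : IsExteriorMap (N62a1eb23.multibrotSet d) ψ) (c : ℂ) (r : ℝ) :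
    (hm ψ (ball c r)).toReal = (volume (Ang ψ c r)).toReal := by
  unfold hm
  rw [Measure.map_apply_of_aemeasurable (bd_aem hd hψ).restrict measurableSet_ball,
    Measure.restrict_apply₀' measurableSet_Ioc.nullMeasurableSet]
  congr 1
  apply measure_congr
  filter_upwards [Pool.Agent.Y736.HG.ae_land hd hψ] with θ hθ
  apply propext
  constructor
  · rintro ⟨h1, h2⟩
    exact ⟨h2, bd ψ θ, h1, bd_spec hθ⟩
  · rintro ⟨h1, ζ, h2, h3⟩
    refine ⟨?_, h1⟩
    show bd ψ θ ∈ ball c r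
    rw [bd_eq h3]
    exact h2

/-- sets of parameters and sets of angles -/
theorem le_hm (hd : 2 ≤ d) (hψ : IsExteriorMap (N62a1eb23.multibrotSet d) ψ) {S : Set ℂ}
    {A : Set ℝ} (hA : ∀ θ ∈ A, θ ∈ Ioc 0 (2 * Real.pi) → bd ψ θ ∈ S) :
    (volume (A ∩ Ioc 0 (2 * Real.pi))).toReal ≤ (hm ψ S).toReal := by
  apply ENNReal.toReal_mono (measure_ne_top _ _)
  unfold hm
  refine le_trans ?_ (Measure.le_map_apply (bd_aem hd hψ).restrict S)
  rw [Measure.restrict_apply₀' measurableSet_Ioc.nullMeasurableSet]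
  apply measure_mono
  rintro θ ⟨h1, h2⟩
  exact ⟨hA θ h1 h2, h2⟩

end Pool.Agent.N772.TC
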