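import Pool.Agent.N772.TC.Der
import Pool.Agent.R240.Sep

/-!
# Lower bounds for the derivatives at the superattracting parameters next to `c₀`, separation
-/

set_option autoImplicit false

open Set Filter Metric MeasureTheory Topology

namespace Pool.Agent.N772.TC

open Pool.Agent.TH279.MD Pool.Agent.Y298.SH Pool.Agent.Y298.SH.CD Pool.Agent.Y298.CA
open Pool.Agent.N253.MS
open Pool.Agent.H712R2 (P)

/-- Schwarz lemma for a bounded function. -/
theorem schw {g : ℂ → ℂ} {c' : ℂ} {R A : ℝ} (hg : DifferentiableOn ℂ g (ball c' R))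
    (hb : ∀ c ∈ ball c' R, ‖g c‖ ≤ A) {c : ℂ} (hc : c ∈ ball c' R) :
    ‖g c - g c'‖ ≤ 2 * A / R * ‖c - c'‖ := by
  have hR : 0 < R := nonempty_ball.1 ⟨c, hc⟩
  have h := Complex.dist_le_div_mul_dist_of_mapsTo_ball (R₂ := 2 * A) hg ?_ hc
  · rwa [dist_eq_norm, dist_eq_norm] at h
  · intro x hx
    rw [mem_closedBall, dist_eq_norm]
    calc ‖g x - g c'‖ ≤ ‖g x‖ + ‖g c'‖ := norm_sub_le _ _
      _ ≤ A + A := add_le_add (hb x hx) (hb c' (mem_ball_self hR))
      _ = 2 * A := by ring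

theorem R_eq {A : ℝ} (hA : 1 ≤ A) : 2 * A / (1 / (8 * A)) = 16 * A ^ 2 := by
  field_simp
  ring

/-- the derivative of the iterate at the critical value, as a function of the parameter -/
theorem G_diff (d n : ℕ) : Differentiable ℂ (fun c : ℂ => deriv ((f d c)^[n]) c) := by
  have h1 : (fun c : ℂ => deriv ((f d c)^[n]) c) =
      fun c => ∏ i ∈ Finset.range n, (d : ℂ) * ((f d c)^[i] c) ^ (d - 1) := by
    ext c
    rw [deriv_iter_eq]
  rw [h1]
  have h2 : ∀ i : ℕ, Differentiable ℂ (fun c : ℂ => (f d c)^[i] c) := by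
    intro i
    induction i with
    | zero => exact differentiable_id
    | succ i ih =>
      have h3 : (fun c : ℂ => (f d c)^[i + 1] c) = fun c => ((f d c)^[i] c) ^ d + c := by
        ext c
        rw [Function.iterate_succ_apply']
        rfl
      rw [h3]
      fun_prop
  apply Differentiable.fun_finsetProd
  intro i _
  exact ((h2 i).pow _).const_mul _

/-- the bounds near a superattracting parameter -/
def Bd (d n : ℕ) (A : ℝ) (c' : ℂ) : Prop := ∀ c ∈ ball c' (1 / (8 * A)),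
  (∀ x ∈ closedBall c (1 / (8 * A)), ‖deriv ((f d c)^[n - 1]) x‖ ≤ A) ∧ ‖deriv (P d n) c‖ ≤ A

theorem Bd.varP {d n : ℕ} {A : ℝ} {c' : ℂ} (h : Bd d n A c') (hA : 1 ≤ A) {c : ℂ}
    (hc : c ∈ ball c' (1 / (8 * A))) :
    ‖deriv (P d n) c - deriv (P d n) c'‖ ≤ 16 * A ^ 2 * ‖c - c'‖ := by
  rw [← R_eq hA]
  apply schw _ _ hc
  · exact ((Pool.Agent.H713R2.differentiable_P d n).deriv).differentiableOn
  · exact fun x hx => (h x hx).2

theorem Bd.varG {d n : ℕ} {A : ℝ} {c' : ℂ} (h : Bd d n A c') (hA : 1 ≤ A) {c : ℂ}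
    (hc : c ∈ ball c' (1 / (8 * A))) {x : ℂ} (hx : x ∈ ball c (1 / (8 * A))) :
    ‖deriv ((f d c)^[n - 1]) x‖ ≤ ‖deriv ((f d c')^[n - 1]) c'‖ + 16 * A ^ 2 * ‖c - c'‖ +
      16 * A ^ 2 * ‖x - c‖ := by
  have hR : 0 < 1 / (8 * A) := nonempty_ball.1 ⟨c, hc⟩
  have h1 : ‖deriv ((f d c)^[n - 1]) c - deriv ((f d c')^[n - 1]) c'‖ ≤ 16 * A ^ 2 * ‖c - c'‖ := by
    rw [← R_eq hA]
    apply schw (g := fun c => deriv ((f d c)^[n - 1]) c) _ _ hc
    · exact (G_diff d (n - 1)).differentiableOn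
    · exact fun y hy => (h y hy).1 y (mem_closedBall_self hR.le)
  have h2 : ‖deriv ((f d c)^[n - 1]) x - deriv ((f d c)^[n - 1]) c‖ ≤ 16 * A ^ 2 * ‖x - c‖ := by
    rw [← R_eq hA]
    apply schw _ _ hx
    · exact ((differentiable_fn d c (n - 1)).deriv).differentiableOn
    · exact fun y hy => (h c hc).1 y (ball_subset_closedBall hy)
  calc ‖deriv ((f d c)^[n - 1]) x‖ = ‖deriv ((f d c')^[n - 1]) c' +
        (deriv ((f d c)^[n - 1]) c - deriv ((f d c')^[n - 1]) c') +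
        (deriv ((f d c)^[n - 1]) x - deriv ((f d c)^[n - 1]) c)‖ := by congr 1; ring
    _ ≤ _ := (norm_add₃_le).trans (by linarith)

/-- attracting cycles, if the derivative with respect to the parameter is small -/
theorem att_B {d n : ℕ} {c' : ℂ} {A s η : ℝ} (hn : 1 ≤ n) (hP : P d n c' = 0)
    (hA : 1 ≤ A) (hb : Bd d n A c') (hη : 0 < η) (hηR : η ≤ 1 / (8 * A)) (hs : 0 < s)
    (hsR : s ^ d ≤ 1 / (8 * A)) (h2 : 2 * d * A * s ^ (d - 1) ≤ 1)
    (h1 : 2 * (‖deriv (P d n) c'‖ + 16 * A ^ 2 * η) * η ≤ s) :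
    ∀ c ∈ ball c' η, ∃ z : ℂ, N62a1eb23.IsAttractingCycle (f d c) n z := by
  have hsub : ball c' η ⊆ ball c' (1 / (8 * A)) := ball_subset_ball hηR
  apply att_per hn hP hη hs (D := ‖deriv (P d n) c'‖ + 16 * A ^ 2 * η) (A := A) _ _ h1 h2
  · intro c hc
    have h3 := hb.varP hA (hsub hc)
    have h4 : ‖c - c'‖ ≤ η := by
      rw [mem_ball, dist_eq_norm] at hc
      exact hc.le
    calc ‖deriv (P d n) c‖ = ‖deriv (P d n) c' + (deriv (P d n) c - deriv (P d n) c')‖ := by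
          congr 1; ring
      _ ≤ ‖deriv (P d n) c'‖ + ‖deriv (P d n) c - deriv (P d n) c'‖ := norm_add_le _ _
      _ ≤ ‖deriv (P d n) c'‖ + 16 * A ^ 2 * ‖c - c'‖ := by linarith
      _ ≤ _ := by gcongr
  · intro c hc x hx
    exact (hb c (hsub hc)).1 x (closedBall_subset_closedBall hsR hx)

/-- attracting cycles, if the derivative of the iterate is small -/
theorem att_C {d n : ℕ} {c' : ℂ} {A B s η : ℝ} (hn : 1 ≤ n) (hP : P d n c' = 0)
    (hA : 1 ≤ A) (hb : Bd d n A c') (hη : 0 < η) (hηR : η ≤ 1 / (8 * A)) (hs : 0 < s)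
    (hsR : s ^ d < 1 / (8 * A)) (h2 : 2 * d * B * s ^ (d - 1) ≤ 1) (h1 : 2 * A * η ≤ s)
    (hB : ‖deriv ((f d c')^[n - 1]) c'‖ + 16 * A ^ 2 * η + 16 * A ^ 2 * s ^ d ≤ B) :
    ∀ c ∈ ball c' η, ∃ z : ℂ, N62a1eb23.IsAttractingCycle (f d c) n z := by
  have hsub : ball c' η ⊆ ball c' (1 / (8 * A)) := ball_subset_ball hηR
  apply att_per hn hP hη hs (D := A) (A := B) _ _ h1 h2
  · intro c hc
    exact (hb c (hsub hc)).2
  · intro c hc x hx
    have h5 : x ∈ ball c (1 / (8 * A)) := closedBall_subset_ball hsR hx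
    refine (hb.varG hA (hsub hc) h5).trans (le_trans ?_ hB)
    have h4 : ‖c - c'‖ ≤ η := by
      rw [mem_ball, dist_eq_norm] at hc
      exact hc.le
    have h6 : ‖x - c‖ ≤ s ^ d := by rwa [mem_closedBall, dist_eq_norm] at hx
    gcongr

/-- a disc of attracting parameters is a holomorphic disc in the Multibrot set -/
theorem radius_le {d n : ℕ} (hd : 2 ≤ d) {c' : ℂ} {η M : ℝ} (hη : 0 < η)
    (h : ∀ c ∈ ball c' η, ∃ z : ℂ, N62a1eb23.IsAttractingCycle (f d c) n z)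
    (hM : ∀ γ : ℂ → ℂ, DifferentiableOn ℂ γ (ball 0 1) →
      (∀ t ∈ ball (0 : ℂ) 1, γ t ∈ N62a1eb23.multibrotSet d) → γ 0 = c' → ‖deriv γ 0‖ ≤ M) :
    η ≤ M := by
  have h1 := hM (fun t => c' + η * t) (by fun_prop) (by
    intro t ht
    obtain ⟨z, hz⟩ := h (c' + η * t) (by
      rw [mem_ball, dist_eq_norm, add_sub_cancel_left, norm_mul, Complex.norm_real,
        Real.norm_eq_abs, abs_of_pos hη]
      rw [mem_ball_zero_iff] at ht
      nlinarith)
    exact interior_subset (Pool.Agent.R240.Alm.att_interior hd ⟨n, z, hz⟩)) (by simp)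
  have h2 : deriv (fun t : ℂ => c' + η * t) 0 = η := by
    have h3 : HasDerivAt (fun t : ℂ => c' + η * t) η 0 := by
      simpa using ((hasDerivAt_id (0 : ℂ)).const_mul (η : ℂ)).const_add c'
    exact h3.deriv
  rw [h2, Complex.norm_real, Real.norm_eq_abs, abs_of_pos hη] at h1
  exact h1

theorem ee {C t a b : ℝ} (hC : C ≤ Real.exp t) (h : a + t ≤ b) :
    C * Real.exp a ≤ Real.exp b := by
  calc C * Real.exp a ≤ Real.exp t * Real.exp a := by gcongr
    _ = Real.exp (a + t) := by rw [← Real.exp_add, add_comm]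
    _ ≤ Real.exp b := Real.exp_le_exp.2 h

/-- the numbers -/
theorem num_B {d : ℕ} (hd : 2 ≤ d) {A p X Y k l : ℝ} (hA : 1 ≤ A) (hl : 0 < l) (hlk : l ≤ k)
    (hk : k ≤ Y / 4) (hX : X = (d - 1 : ℕ) * Y) (hkl : k = (d - 1 : ℕ) * l)
    (hAX : A ≤ Real.exp (X + l / 8)) (hT : 400 * d ≤ Real.exp (l / 8)) (hp0 : 0 ≤ p)
    (hp : p ≤ Real.exp (X - k)) :
    ∃ s η : ℝ, η = Real.exp (-(X + Y - l / 8)) ∧ 0 < s ∧ η ≤ 1 / (8 * A) ∧ s ^ d ≤ 1 / (8 * A) ∧
      2 * d * A * s ^ (d - 1) ≤ 1 ∧ 2 * (p + 16 * A ^ 2 * η) * η ≤ s := by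
  have hdR : (2 : ℝ) ≤ d := by exact_mod_cast hd
  have hA0 : 0 < A := by linarith
  obtain ⟨s, hs⟩ : ∃ s, s = Real.exp (-(Y + l / 4)) := ⟨_, rfl⟩
  obtain ⟨η, hη⟩ : ∃ η, η = Real.exp (-(X + Y - l / 8)) := ⟨_, rfl⟩
  have hs0 : 0 < s := by rw [hs]; exact Real.exp_pos _
  have hη0 : 0 < η := by rw [hη]; exact Real.exp_pos _
  have hsm : s ^ (d - 1) = Real.exp (-(X + k / 4)) := by
    rw [hs, ← Real.exp_nat_mul]
    congr 1
    rw [hX, hkl]
    ring
  have hsd : s ^ d = Real.exp (-(Y + l / 4 + X + k / 4)) := by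
    have : s ^ d = s * s ^ (d - 1) := by
      rw [← pow_succ', Nat.sub_add_cancel (by omega)]
    rw [this, hsm, hs, ← Real.exp_add]
    congr 1
    ring
  have h8 : (8 : ℝ) ≤ Real.exp (l / 8) := by linarith
  have h200 : (200 : ℝ) ≤ Real.exp (l / 8) := by linarith
  have hA2 : A ^ 2 ≤ Real.exp (2 * X + l / 4) := by
    calc A ^ 2 ≤ Real.exp (X + l / 8) ^ 2 := by gcongr
      _ = _ := by rw [← Real.exp_nat_mul]; congr 1; push_cast; ring
  have hinv : ∀ x : ℝ, 8 * Real.exp (x + (X + l / 8)) ≤ 1 → Real.exp x ≤ 1 / (8 * A) := by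
    intro x hx
    rw [le_div_iff₀ (by positivity)]
    calc Real.exp x * (8 * A) ≤ Real.exp x * (8 * Real.exp (X + l / 8)) := by gcongr
      _ = 8 * Real.exp (x + (X + l / 8)) := by rw [Real.exp_add x]; ring
      _ ≤ 1 := hx
  have hone : ∀ x : ℝ, x + l / 8 ≤ 0 → 8 * Real.exp x ≤ 1 := by
    intro x hx
    have := ee h8 hx
    rwa [Real.exp_zero] at this
  refine ⟨s, η, hη, hs0, ?_, ?_, ?_, ?_⟩
  · rw [hη]
    apply hinv
    apply hone
    linarith
  · rw [hsd]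
    apply hinv
    apply hone
    linarith
  · rw [hsm]
    calc 2 * d * A * Real.exp (-(X + k / 4)) ≤
        400 * d * Real.exp (X + l / 8) * Real.exp (-(X + k / 4)) := by
          gcongr
          norm_num
      _ = (400 * d) * Real.exp (X + l / 8 + -(X + k / 4)) := by
          rw [Real.exp_add (X + l / 8) (-(X + k / 4))]; ring
      _ ≤ Real.exp 0 := ee hT (by linarith)
      _ = 1 := Real.exp_zero
  · have e1 : 4 * (p * η) ≤ s := by
      calc 4 * (p * η) ≤ 200 * (Real.exp (X - k) * Real.exp (-(X + Y - l / 8))) := by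
            rw [hη]
            gcongr
            norm_num
        _ = 200 * Real.exp (X - k + -(X + Y - l / 8)) := by
            rw [Real.exp_add (X - k) (-(X + Y - l / 8))]
        _ ≤ Real.exp (-(Y + l / 4)) := ee h200 (by linarith)
        _ = s := hs.symm
    have e2 : 64 * (A ^ 2 * η * η) ≤ s := by
      calc 64 * (A ^ 2 * η * η) ≤ 200 * (Real.exp (2 * X + l / 4) *
            Real.exp (-(X + Y - l / 8)) * Real.exp (-(X + Y - l / 8))) := by
            rw [hη]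
            gcongr
            norm_num
        _ = 200 * Real.exp (2 * X + l / 4 + -(X + Y - l / 8) + -(X + Y - l / 8)) := by
            rw [Real.exp_add (2 * X + l / 4 + -(X + Y - l / 8)) (-(X + Y - l / 8)),
              Real.exp_add (2 * X + l / 4) (-(X + Y - l / 8))]
        _ ≤ Real.exp (-(Y + l / 4)) := ee h200 (by linarith)
        _ = s := hs.symm
    linarith

theorem num_C {d : ℕ} (hd : 2 ≤ d) {A q X Y k l : ℝ} (hA : 1 ≤ A) (hl : 0 < l) (hlk : l ≤ k)
    (hk : k ≤ Y / 4) (hX : X = (d - 1 : ℕ) * Y) (hkl : k = (d - 1 : ℕ) * l)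
    (hAX : A ≤ Real.exp (X + l / 8)) (hT : 400 * d ≤ Real.exp (l / 8))
    (hq : q ≤ Real.exp (X - k)) :
    ∃ s η B : ℝ, η = Real.exp (-(X + Y - l / 8)) ∧ 0 < s ∧ η ≤ 1 / (8 * A) ∧ s ^ d < 1 / (8 * A) ∧
      2 * d * B * s ^ (d - 1) ≤ 1 ∧ 2 * A * η ≤ s ∧
      q + 16 * A ^ 2 * η + 16 * A ^ 2 * s ^ d ≤ B := by
  have hdR : (2 : ℝ) ≤ d := by exact_mod_cast hd
  have hA0 : 0 < A := by linarith
  obtain ⟨s, hs⟩ : ∃ s, s = Real.exp (-(Y - 3 * l / 8)) := ⟨_, rfl⟩
  obtain ⟨η, hη⟩ : ∃ η, η = Real.exp (-(X + Y - l / 8)) := ⟨_, rfl⟩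
  have hs0 : 0 < s := by rw [hs]; exact Real.exp_pos _
  have hη0 : 0 < η := by rw [hη]; exact Real.exp_pos _
  have hsm : s ^ (d - 1) = Real.exp (-(X - 3 * k / 8)) := by
    rw [hs, ← Real.exp_nat_mul]
    congr 1
    rw [hX, hkl]
    ring
  have hsd : s ^ d = Real.exp (-(Y - 3 * l / 8 + X - 3 * k / 8)) := by
    have : s ^ d = s * s ^ (d - 1) := by
      rw [← pow_succ', Nat.sub_add_cancel (by omega)]
    rw [this, hsm, hs, ← Real.exp_add]
    congr 1
    ring
  have h8 : (9 : ℝ) ≤ Real.exp (l / 8) := by linarith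
  have h200 : (200 : ℝ) ≤ Real.exp (l / 8) := by linarith
  have hA2 : A ^ 2 ≤ Real.exp (2 * X + l / 4) := by
    calc A ^ 2 ≤ Real.exp (X + l / 8) ^ 2 := by gcongr
      _ = _ := by rw [← Real.exp_nat_mul]; congr 1; push_cast; ring
  have hinv : ∀ x : ℝ, 9 * Real.exp (x + (X + l / 8)) ≤ 1 → Real.exp x < 1 / (8 * A) := by
    intro x hx
    rw [lt_div_iff₀ (by positivity)]
    calc Real.exp x * (8 * A) ≤ Real.exp x * (8 * Real.exp (X + l / 8)) := by gcongr
      _ = 8 * Real.exp (x + (X + l / 8)) := by rw [Real.exp_add x]; ring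
      _ < 9 * Real.exp (x + (X + l / 8)) := by
          have := Real.exp_pos (x + (X + l / 8))
          linarith
      _ ≤ 1 := hx
  have hone : ∀ x : ℝ, x + l / 8 ≤ 0 → 9 * Real.exp x ≤ 1 := by
    intro x hx
    have := ee h8 hx
    rwa [Real.exp_zero] at this
  refine ⟨s, η, Real.exp (X - k / 2), hη, hs0, ?_, ?_, ?_, ?_, ?_⟩
  · rw [hη]
    refine (hinv _ (hone _ ?_)).le
    linarith
  · rw [hsd]
    apply hinv
    apply hone
    linarith
  · rw [hsm]
    calc 2 * d * Real.exp (X - k / 2) * Real.exp (-(X - 3 * k / 8)) ≤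
        400 * d * Real.exp (X - k / 2) * Real.exp (-(X - 3 * k / 8)) := by
          gcongr
          norm_num
      _ = (400 * d) * Real.exp (X - k / 2 + -(X - 3 * k / 8)) := by
          rw [Real.exp_add (X - k / 2) (-(X - 3 * k / 8))]; ring
      _ ≤ Real.exp 0 := ee hT (by linarith)
      _ = 1 := Real.exp_zero
  · calc 2 * A * η ≤ 200 * Real.exp (X + l / 8) * Real.exp (-(X + Y - l / 8)) := by
          rw [hη]
          gcongr
          norm_num
      _ = 200 * Real.exp (X + l / 8 + -(X + Y - l / 8)) := by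
          rw [Real.exp_add (X + l / 8) (-(X + Y - l / 8))]; ring
      _ ≤ Real.exp (-(Y - 3 * l / 8)) := ee h200 (by linarith)
      _ = s := hs.symm
  · have e0 : 200 * q ≤ Real.exp (X - k / 2) := by
      calc 200 * q ≤ 200 * Real.exp (X - k) := by gcongr
        _ ≤ _ := ee h200 (by linarith)
    have e1 : 200 * (A ^ 2 * η) ≤ Real.exp (X - k / 2) := by
      calc 200 * (A ^ 2 * η) ≤ 200 * (Real.exp (2 * X + l / 4) * Real.exp (-(X + Y - l / 8))) := by
            rw [hη]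
            gcongr
        _ = 200 * Real.exp (2 * X + l / 4 + -(X + Y - l / 8)) := by
            rw [Real.exp_add (2 * X + l / 4) (-(X + Y - l / 8))]
        _ ≤ _ := ee h200 (by linarith)
    have e2 : 200 * (A ^ 2 * s ^ d) ≤ Real.exp (X - k / 2) := by
      calc 200 * (A ^ 2 * s ^ d) ≤ 200 * (Real.exp (2 * X + l / 4) *
            Real.exp (-(Y - 3 * l / 8 + X - 3 * k / 8))) := by
            rw [hsd]
            gcongr
        _ = 200 * Real.exp (2 * X + l / 4 + -(Y - 3 * l / 8 + X - 3 * k / 8)) := by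
            rw [Real.exp_add (2 * X + l / 4) (-(Y - 3 * l / 8 + X - 3 * k / 8))]
        _ ≤ _ := ee h200 (by linarith)
    have e3 : 0 < Real.exp (X - k / 2) := Real.exp_pos _
    have e4 : 0 ≤ A ^ 2 * η := by positivity
    have e5 : 0 ≤ A ^ 2 * s ^ d := by positivity
    linarith

/-- **The derivatives at the superattracting parameters next to `c₀`, and their separation.** -/
theorem der_law {d : ℕ} (hd : 2 ≤ d) {χ : ℝ} {c₀ : ℂ} (h : Lyap d χ c₀) {ε : ℝ} (hε : 0 < ε) :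
    ∃ δ : ℝ, 0 < δ ∧ ∀ᶠ n : ℕ in atTop, ∀ c' : ℂ, P d n c' = 0 →
      ‖c' - c₀‖ ≤ Real.exp (-((χ - δ) * n)) →
      (Real.exp ((χ - ε) * n) ≤ ‖deriv ((f d c')^[n - 1]) c'‖ ∧
        ‖deriv ((f d c')^[n - 1]) c'‖ ≤ Real.exp ((χ + ε) * n)) ∧
      (Real.exp ((χ - ε) * n) ≤ ‖deriv (P d n) c'‖ ∧
        ‖deriv (P d n) c'‖ ≤ Real.exp ((χ + ε) * n)) ∧
      ∀ b : ℂ, P d n b = 0 → b ≠ c' → Real.exp (-((χ + ε) * n)) ≤ ‖b - c'‖ := by
  have hχ := h.1
  obtain ⟨m, hm⟩ : ∃ m : ℝ, m = ((d - 1 : ℕ) : ℝ) := ⟨_, rfl⟩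
  have hm1 : 1 ≤ m := by rw [hm]; exact_mod_cast (by omega : 1 ≤ d - 1)
  have hmd : m = (d : ℝ) - 1 := by rw [hm]; push_cast [Nat.cast_sub (show 1 ≤ d by omega)]; ring
  have hm0 : 0 < m := by linarith
  obtain ⟨κ, hκ⟩ : ∃ κ, κ = min (ε / 4) (χ / (4 * m)) := ⟨_, rfl⟩
  have hκ0 : 0 < κ := by rw [hκ]; exact lt_min (by positivity) (by positivity)
  have hκε : κ ≤ ε / 4 := by rw [hκ]; exact min_le_left _ _
  have hκχ : κ ≤ χ / (4 * m) := by rw [hκ]; exact min_le_right _ _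
  have hκm : κ / m ≤ κ := div_le_self hκ0.le hm1
  have hκm0 : 0 < κ / m := by positivity
  obtain ⟨δ₁, hδ₁, H₁⟩ := upper_per hd h (ε := κ / m / 8) (by positivity)
  obtain ⟨δ₂, hδ₂, -, H₂⟩ := size_law hd h (ε := κ / m / 16) (by positivity)
  refine ⟨min δ₁ δ₂, lt_min hδ₁ hδ₂, ?_⟩
  filter_upwards [H₁, H₂, eventually_ge_atTop 1, ev_lin (show 0 < κ / m / 8 by positivity)
    (Real.log (400 * d))] with n hn1 hn2 hn hn3 c' hP hcc
  have hn0 : (1 : ℝ) ≤ n := by exact_mod_cast hn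
  have hn00 : (0 : ℝ) < n := by linarith
  have hdR : (2 : ℝ) ≤ d := by exact_mod_cast hd
  obtain ⟨A, hA1, hA2, hb⟩ := hn1 c' hP (hcc.trans (Real.exp_le_exp.2 (by
    have : (χ - δ₁) * n ≤ (χ - min δ₁ δ₂) * n := by
      gcongr
      exact min_le_left _ _
    linarith)))
  obtain ⟨-, hγ⟩ := hn2 c' hP (hcc.trans (Real.exp_le_exp.2 (by
    have : (χ - δ₂) * n ≤ (χ - min δ₁ δ₂) * n := by
      gcongr
      exact min_le_right _ _
    linarith)))
  have hbd : Bd d n A c' := hb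
  have hA0 : 0 < A := by linarith
  obtain ⟨X, hX⟩ : ∃ X, X = χ * n := ⟨_, rfl⟩
  obtain ⟨Y, hY⟩ : ∃ Y, Y = χ / m * n := ⟨_, rfl⟩
  obtain ⟨k, hk⟩ : ∃ k, k = κ * n := ⟨_, rfl⟩
  obtain ⟨l, hl⟩ : ∃ l, l = κ / m * n := ⟨_, rfl⟩
  have hl0 : 0 < l := by rw [hl]; positivity
  have hlk : l ≤ k := by rw [hl, hk]; gcongr
  have hkY : k ≤ Y / 4 := by
    rw [hk, hY]
    calc κ * n ≤ χ / (4 * m) * n := by gcongr
      _ = χ / m * n / 4 := by field_simp
  have hXY : X = (d - 1 : ℕ) * Y := by rw [← hm, hX, hY]; field_simp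
  have hkl : k = (d - 1 : ℕ) * l := by rw [← hm, hk, hl]; field_simp
  have hAX : A ≤ Real.exp (X + l / 8) := by
    refine hA2.trans (le_of_eq ?_)
    rw [hX, hl]
    congr 1
    ring
  have hT : 400 * d ≤ Real.exp (l / 8) := by
    calc (400 * d : ℝ) = Real.exp (Real.log (400 * d)) := (Real.exp_log (by positivity)).symm
      _ ≤ _ := Real.exp_le_exp.2 (by rw [hl]; linarith)
  have hηM : ∀ η : ℝ, η = Real.exp (-(X + Y - l / 8)) →
      ¬ ∀ c ∈ ball c' η, ∃ z : ℂ, N62a1eb23.IsAttractingCycle (f d c) n z := by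
    intro η hη hatt
    have h1 := radius_le hd (by rw [hη]; exact Real.exp_pos _) hatt hγ
    rw [hη, Real.exp_le_exp] at h1
    have h2 : (χ * ((d : ℝ) / ((d : ℝ) - 1)) - κ / m / 16) * n = X + Y - l / 16 := by
      rw [← hmd, hX, hY, hl, show (d : ℝ) = m + 1 by linarith]
      field_simp
    rw [h2] at h1
    linarith
  have hlowP : Real.exp (X - k) ≤ ‖deriv (P d n) c'‖ := by
    by_contra hcon
    push Not at hcon
    obtain ⟨s, η, hη, hs, h1, h2, h3, h4⟩ := num_B hd hA1 hl0 hlk hkY hXY hkl hAX hT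
      (norm_nonneg _) hcon.le
    exact hηM η hη (att_B hn hP hA1 hbd (by rw [hη]; exact Real.exp_pos _) h1 hs h2 h3 h4)
  have hlowG : Real.exp (X - k) ≤ ‖deriv ((f d c')^[n - 1]) c'‖ := by
    by_contra hcon
    push Not at hcon
    obtain ⟨s, η, B, hη, hs, h1, h2, h3, h4, h5⟩ := num_C hd hA1 hl0 hlk hkY hXY hkl hAX hT hcon.le
    exact hηM η hη (att_C hn hP hA1 hbd (by rw [hη]; exact Real.exp_pos _) h1 hs h2 h3 h4 h5)
  have hR0 : 0 < 1 / (8 * A) := by positivity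
  have hmem : c' ∈ ball c' (1 / (8 * A)) := mem_ball_self hR0
  have hlo : Real.exp ((χ - ε) * n) ≤ Real.exp (X - k) := by
    apply Real.exp_le_exp.2
    rw [hX, hk]
    have : κ * n ≤ ε / 4 * n := by gcongr
    have : 0 < ε * n := by positivity
    nlinarith
  have hup : A ≤ Real.exp ((χ + ε) * n) := by
    refine hAX.trans (Real.exp_le_exp.2 ?_)
    rw [hX]
    have h1 : l ≤ ε / 4 * n := by
      rw [hl]
      exact mul_le_mul_of_nonneg_right (hκm.trans hκε) hn00.le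
    have : 0 < ε * n := by positivity
    nlinarith
  refine ⟨⟨hlo.trans hlowG, ((hbd c' hmem).1 c' (mem_closedBall_self hR0.le)).trans hup⟩,
    ⟨hlo.trans hlowP, (hbd c' hmem).2.trans hup⟩, ?_⟩
  intro b hPb hbc
  have hpos : 0 < ‖b - c'‖ := norm_pos_iff.2 (sub_ne_zero.2 hbc)
  have h16 : (16 : ℝ) ≤ Real.exp (l / 8) := by linarith
  have hA2 : A ^ 2 ≤ Real.exp (2 * X + l / 4) := by
    calc A ^ 2 ≤ Real.exp (X + l / 8) ^ 2 := by gcongr
      _ = _ := by rw [← Real.exp_nat_mul]; congr 1; push_cast; ring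
  -- the main inequality
  have hmain : Real.exp (X - k) ≤ 16 * A ^ 2 * ‖b - c'‖ := by
    rcases lt_or_ge ‖b - c'‖ (1 / (8 * A)) with hlt | hge
    · have hsub : closedBall c' ‖b - c'‖ ⊆ ball c' (1 / (8 * A)) := closedBall_subset_ball hlt
      have h1 := Convex.norm_image_sub_le_of_norm_deriv_le (𝕜 := ℂ)
        (f := fun x => P d n x - deriv (P d n) c' * x) (C := 16 * A ^ 2 * ‖b - c'‖)
        (s := closedBall c' ‖b - c'‖) (x := c') (y := b) (fun x _ =>
          (((Pool.Agent.H713R2.differentiable_P d n) x).sub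
            ((differentiableAt_id).const_mul _))) (by
          intro x hx
          have h2 : deriv (fun x => P d n x - deriv (P d n) c' * x) x =
              deriv (P d n) x - deriv (P d n) c' := by
            have h3 : HasDerivAt (fun x => P d n x - deriv (P d n) c' * x)
                (deriv (P d n) x - deriv (P d n) c' * 1) x :=
              (((Pool.Agent.H713R2.differentiable_P d n) x).hasDerivAt).sub
                ((hasDerivAt_id x).const_mul _)
            rw [h3.deriv, mul_one]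
          rw [h2]
          refine (hbd.varP hA1 (hsub hx)).trans ?_
          rw [mem_closedBall, dist_eq_norm] at hx
          gcongr) (convex_closedBall _ _) (mem_closedBall_self hpos.le) (by
          rw [mem_closedBall, dist_eq_norm])
      simp only [hPb, hP] at h1
      have h3 : (0 - deriv (P d n) c' * b) - (0 - deriv (P d n) c' * c') =
          -(deriv (P d n) c' * (b - c')) := by ring
      rw [h3, norm_neg, norm_mul] at h1
      have h4 := le_of_mul_le_mul_right h1 hpos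
      exact hlowP.trans h4
    · have h1 : 16 * A ^ 2 * (1 / (8 * A)) = 2 * A := by field_simp; ring
      have h2 : 2 * A ≤ 16 * A ^ 2 * ‖b - c'‖ := by
        rw [← h1]
        gcongr
      have h3 : ‖deriv (P d n) c'‖ ≤ A := (hbd c' hmem).2
      linarith
  have h5 : Real.exp (X - k) ≤ Real.exp (2 * X + l / 4 + l / 8) * ‖b - c'‖ := by
    refine hmain.trans ?_
    gcongr
    calc 16 * A ^ 2 ≤ 16 * Real.exp (2 * X + l / 4) := by gcongr
      _ ≤ _ := ee h16 le_rfl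
  have h6 : Real.exp (X - k) * Real.exp (-(2 * X + l / 4 + l / 8)) ≤ ‖b - c'‖ := by
    rw [Real.exp_neg, ← div_eq_mul_inv, div_le_iff₀ (Real.exp_pos _)]
    linarith
  refine le_trans ?_ h6
  rw [← Real.exp_add]
  apply Real.exp_le_exp.2
  rw [hX, hk, hl]
  have e1 : κ / m * n ≤ ε / 4 * n := mul_le_mul_of_nonneg_right (hκm.trans hκε) hn00.le
  have e2 : κ * n ≤ ε / 4 * n := by gcongr
  nlinarith

end Pool.Agent.N772.TC
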