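import Pool.Agent.N772.TC.Low
import Pool.Agent.N772.TC.Area
import Pool.Agent.R240.LL2

/-!
# Means over the superattracting parameters of exact period `n`, and discriminants
-/

set_option autoImplicit false

open Set Filter Metric MeasureTheory Topology

namespace Pool.Agent.N772.TC

open Pool.Agent.H713R2 (IsExteriorMap)
open Pool.Agent.H712R2 (P fc PP eval_PP natDegree_PP P_succ P_zero)
open Pool.Agent.Y298.CA (Lyap)
open Pool.Agent.R240.Trans (AA AA_one der_centre sep Sm_zero centre_mem)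
open Pool.Agent.R240.LL (ZZ mem_ZZ card_ZZ nodup)
open Pool.Agent.TH279.MD (f)

variable {d : ℕ} {ψ : ℂ → ℂ}

/-! ### Bounds at all superattracting parameters -/

theorem deriv_P_succ (n : ℕ) (c : ℂ) :
    deriv (P d (n + 1)) c = d * P d n c ^ (d - 1) * deriv (P d n) c + 1 := by
  have h1 : P d (n + 1) = fun c => P d n c ^ d + c := by
    funext c
    rw [P_succ]
  have h2 : HasDerivAt (fun c => P d n c ^ d + c)
      ((d : ℂ) * P d n c ^ (d - 1) * deriv (P d n) c + 1) c :=
    (((Pool.Agent.H713R2.differentiable_P d n) c).hasDerivAt.pow d).add (hasDerivAt_id c)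
  rw [h1]
  exact h2.deriv

theorem deriv_P_le (hd : 2 ≤ d) {c : ℂ} (hc : c ∈ N62a1eb23.multibrotSet d) (n : ℕ) :
    ‖deriv (P d n) c‖ ≤ (3 * d : ℝ) ^ n := by
  have hdR : (2 : ℝ) ≤ d := by exact_mod_cast hd
  induction n with
  | zero =>
    have h1 : P d 0 = fun _ => 0 := by funext c; rfl
    rw [h1]
    simp
  | succ n ih =>
    rw [deriv_P_succ]
    have h1 := Pool.Agent.H462R2.CD.pow_le_two hd hc n
    have h2 : (1 : ℝ) ≤ (3 * d : ℝ) ^ n := one_le_pow₀ (by linarith)
    calc ‖(d : ℂ) * P d n c ^ (d - 1) * deriv (P d n) c + 1‖ ≤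
        ‖(d : ℂ) * P d n c ^ (d - 1) * deriv (P d n) c‖ + ‖(1 : ℂ)‖ := norm_add_le _ _
      _ = d * ‖P d n c‖ ^ (d - 1) * ‖deriv (P d n) c‖ + 1 := by
          rw [norm_mul, norm_mul, norm_pow, Complex.norm_natCast, norm_one]
      _ ≤ d * 2 * (3 * d) ^ n + 1 := by gcongr
      _ ≤ d * 2 * (3 * d) ^ n + d * (3 * d) ^ n := by nlinarith
      _ = (3 * d : ℝ) ^ (n + 1) := by ring


/-- from multiplicative to logarithmic bounds -/
theorem abs_log_le {x K : ℝ} (hx : 0 < x) (h1 : -K ≤ Real.log x) (h2 : Real.log x ≤ K) :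
    |Real.log x| ≤ K := abs_le.2 ⟨h1, h2⟩

/-- the derivative with respect to the parameter, at all centres -/
theorem logP_bound (hd : 2 ≤ d) {n : ℕ} (hn : 1 ≤ n) {a : ℂ} (h : P d n a = 0) :
    |Real.log ‖deriv (P d n) a‖| ≤ (Real.log 4 + Real.log (AA d) + Real.log (3 * d)) * n := by
  have hdR : (2 : ℝ) ≤ d := by exact_mod_cast hd
  have hn0 : (1 : ℝ) ≤ n := by exact_mod_cast hn
  have h1 := der_centre hd hn h
  have h2 := deriv_P_le hd (centre_mem hd hn h) n
  have hA := AA_one hd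
  have hA0 : 0 < AA d := by linarith
  have l4 : 0 ≤ Real.log 4 := Real.log_nonneg (by norm_num)
  have lA : 0 ≤ Real.log (AA d) := Real.log_nonneg hA
  have l3 : 0 ≤ Real.log (3 * d) := Real.log_nonneg (by linarith)
  obtain ⟨x, hx⟩ : ∃ x, x = ‖deriv (P d n) a‖ := ⟨_, rfl⟩
  rw [← hx] at h1 h2 ⊢
  have hx0 : 0 < x := by
    by_contra hcon
    push Not at hcon
    have : 4 * AA d ^ (n - 1) * x ≤ 0 := mul_nonpos_of_nonneg_of_nonpos (by positivity) hcon
    linarith
  apply abs_log_le hx0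
  · have h3 := Real.log_le_log one_pos h1
    rw [Real.log_one, Real.log_mul (by positivity) hx0.ne', Real.log_mul (by norm_num)
      (by positivity), Real.log_pow] at h3
    have h4 : ((n - 1 : ℕ) : ℝ) ≤ n := by exact_mod_cast (by omega : n - 1 ≤ n)
    have h5 : ((n - 1 : ℕ) : ℝ) * Real.log (AA d) ≤ n * Real.log (AA d) := by gcongr
    have h6 : Real.log 4 ≤ Real.log 4 * n := le_mul_of_one_le_right l4 hn0
    have h7 : 0 ≤ Real.log (3 * d) * n := by positivity
    nlinarith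
  · have h3 := Real.log_le_log hx0 h2
    rw [Real.log_pow] at h3
    have h6 : 0 ≤ Real.log 4 * n := by positivity
    have h7 : 0 ≤ Real.log (AA d) * n := by positivity
    nlinarith

theorem iter_eq (c : ℂ) (i : ℕ) (hd : 2 ≤ d) : (f d c)^[i] c = P d (i + 1) c := by
  show (f d c)^[i] c = (fc d c)^[i + 1] 0
  rw [Function.iterate_succ_apply]
  have h1 : fc d c 0 = c := by
    show (0 : ℂ) ^ d + c = c
    rw [zero_pow (by omega), zero_add]
  rw [h1]
  rfl

theorem normG_eq (hd : 2 ≤ d) (n : ℕ) (c : ℂ) : ‖deriv ((f d c)^[n]) c‖ =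
    (d : ℝ) ^ n * ∏ i ∈ Finset.range n, ‖P d (i + 1) c‖ ^ (d - 1) := by
  rw [Pool.Agent.Y298.SH.deriv_iter_eq, norm_prod]
  have h1 : ∀ i ∈ Finset.range n, ‖(d : ℂ) * ((f d c)^[i] c) ^ (d - 1)‖ =
      (d : ℝ) * ‖P d (i + 1) c‖ ^ (d - 1) := by
    intro i _
    rw [norm_mul, Complex.norm_natCast, norm_pow, iter_eq c i hd]
  rw [Finset.prod_congr rfl h1, Finset.prod_mul_distrib, Finset.prod_const, Finset.card_range]

/-- the derivative of the iterate, at the centres of exact period `n` -/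
theorem logG_bound (hd : 2 ≤ d) {n : ℕ} (hn : 1 ≤ n) {a : ℂ} (h : a ∈ Cn d n) :
    |Real.log ‖deriv ((f d a)^[n - 1]) a‖| ≤ (Real.log 400 + Real.log (2 * d)) * n := by
  have hdR : (2 : ℝ) ≤ d := by exact_mod_cast hd
  obtain ⟨N, rfl⟩ : ∃ N, n = N + 1 := ⟨n - 1, by omega⟩
  have hP := Pool.Agent.N896.MB.per_zero h
  have hM := centre_mem hd hn hP
  have hne : ∀ i, 1 ≤ i → i ≤ N → P d i a ≠ 0 := by
    intro i h1 h2 h3
    have h4 : Function.IsPeriodicPt (fc d a) i 0 := h3
    have h5 := h4.minimalPeriod_le (by omega)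
    have h6 : Function.minimalPeriod (fc d a) 0 = N + 1 := h
    omega
  have hnt : ∀ i, 1 ≤ i → i ≤ N → ∀ ρ, 0 < ρ → Pool.Agent.R240.Dpu.NT d a i ρ := by
    intro i h1 h2 ρ hρ
    exact Pool.Agent.R240.Dpu.nt_of hd hM (by omega : 1 ≤ N + 1) le_rfl (Sm_zero hd (N + 1))
      (by rw [hP, norm_zero]) h1 (by omega) (by rw [mul_zero]; exact norm_pos_iff.2 (hne i h1 h2))
      hρ
  have h1 := Pool.Agent.R240.Dpu.prod_lower hd hne hnt
  have h2 : ∏ i ∈ Finset.range N, ‖P d (i + 1) a‖ ^ (d - 1) ≤ 2 ^ N := by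
    calc ∏ i ∈ Finset.range N, ‖P d (i + 1) a‖ ^ (d - 1) ≤ ∏ _i ∈ Finset.range N, (2 : ℝ) :=
          Finset.prod_le_prod (fun _ _ => by positivity)
            (fun x _ => Pool.Agent.H462R2.CD.pow_le_two hd hM (x + 1))
      _ = 2 ^ N := by simp
  rw [Nat.add_sub_cancel, normG_eq hd]
  obtain ⟨x, hx⟩ : ∃ x, x = ∏ i ∈ Finset.range N, ‖P d (i + 1) a‖ ^ (d - 1) := ⟨_, rfl⟩
  rw [← hx] at h1 h2 ⊢
  have hx0 : 0 < x := by
    by_contra hcon
    push Not at hcon
    have : (400 * (d : ℝ)) ^ N * x ≤ 0 := mul_nonpos_of_nonneg_of_nonpos (by positivity) hcon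
    linarith
  have l4 : 0 ≤ Real.log 400 := Real.log_nonneg (by norm_num)
  have l2 : 0 ≤ Real.log (2 * d) := Real.log_nonneg (by linarith)
  have hd0 : (0 : ℝ) < d := by linarith
  have hN0 : (0 : ℝ) ≤ N := Nat.cast_nonneg N
  apply abs_log_le (by positivity)
  · have h3 : 1 ≤ (400 : ℝ) ^ N * ((d : ℝ) ^ N * x) := by
      rw [← mul_assoc, ← mul_pow]
      exact h1
    have h4 := Real.log_le_log one_pos h3
    rw [Real.log_one, Real.log_mul (by positivity) (by positivity), Real.log_pow] at h4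
    push_cast
    have h5 : 0 ≤ Real.log (2 * d) * (N + 1) := by positivity
    nlinarith
  · have h3 : (d : ℝ) ^ N * x ≤ (2 * d) ^ N := by
      rw [mul_comm (2 : ℝ), mul_pow]
      gcongr
    have h4 := Real.log_le_log (by positivity) h3
    rw [Real.log_pow] at h4
    push_cast
    have h5 : 0 ≤ Real.log 400 * (N + 1) := by positivity
    nlinarith

/-- the distances of the centres -/
theorem logD_bound (hd : 2 ≤ d) {n : ℕ} (hn : 1 ≤ n) {a b : ℂ} (ha : P d n a = 0)
    (hb : P d n b = 0) (hab : b ≠ a) :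
    |Real.log ‖b - a‖| ≤ (Real.log 12 + Real.log (256 * d ^ 2 * AA d)) * n := by
  have hdR : (2 : ℝ) ≤ d := by exact_mod_cast hd
  have hn0 : (1 : ℝ) ≤ n := by exact_mod_cast hn
  have h1 := sep hd hn hn le_rfl le_rfl hb ha hab
  have hA := AA_one hd
  have hB : 1 ≤ 256 * (d : ℝ) ^ 2 * AA d := by nlinarith
  have l12 : 0 ≤ Real.log 12 := Real.log_nonneg (by norm_num)
  have lB : 0 ≤ Real.log (256 * (d : ℝ) ^ 2 * AA d) := Real.log_nonneg hB
  have hx0 : 0 < ‖b - a‖ := norm_pos_iff.2 (sub_ne_zero.2 hab)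
  apply abs_log_le hx0
  · have h3 := Real.log_le_log one_pos h1
    rw [Real.log_one, Real.log_mul (by positivity) hx0.ne', Real.log_mul (by norm_num)
      (by positivity), Real.log_pow] at h3
    have h6 : Real.log 12 ≤ Real.log 12 * n := le_mul_of_one_le_right l12 hn0
    nlinarith
  · have h2 : ‖b - a‖ ≤ 12 := by
      have e1 := mb_sub hd (centre_mem hd hn hb)
      have e2 := mb_sub hd (centre_mem hd hn ha)
      rw [mem_closedBall_zero_iff] at e1 e2
      have := norm_sub_le b a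
      linarith
    have h3 := Real.log_le_log hx0 h2
    have h6 : Real.log 12 ≤ Real.log 12 * n := le_mul_of_one_le_right l12 hn0
    have h7 : 0 ≤ Real.log (256 * (d : ℝ) ^ 2 * AA d) * n := by positivity
    nlinarith

/-! ### Means -/

/-- the mean over the superattracting parameters of exact period `n` -/
noncomputable def mean (d n : ℕ) (x : ℂ → ℝ) : ℝ := (∑ᶠ c ∈ Cn d n, x c) / (Cn d n).ncard

theorem mean_tendsto (hd : 2 ≤ d) {x : ℕ → ℂ → ℝ} {K : ℝ}
    (hx : ∀ᶠ n : ℕ in atTop, ∀ c ∈ Cn d n, 0 ≤ x n c ∧ x n c ≤ K)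
    (hm : ∀ ε : ℝ, 0 < ε → Tendsto (fun n : ℕ => ({c | c ∈ Cn d n ∧ x n c ≤ ε}.ncard : ℝ) /
      (Cn d n).ncard) atTop (𝓝 1)) :
    Tendsto (fun n : ℕ => mean d n (x n)) atTop (𝓝 0) := by
  classical
  have h0 := (card_tendsto hd).eventually_const_lt one_half_lt_one
  rw [Metric.tendsto_atTop']
  intro η hη
  have hη4 : 0 < η / 4 := by positivity
  have hη5 : 1 - η / (4 * (|K| + 1)) < 1 := by
    have : 0 < η / (4 * (|K| + 1)) := by positivity
    linarith
  obtain ⟨N, hN⟩ := eventually_atTop.1 (hx.and (h0.and (((hm _ hη4).eventually_const_lt hη5).and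
    (eventually_ge_atTop 1))))
  refine ⟨N, fun n hn => ?_⟩
  obtain ⟨h1, h2, h3, h4⟩ := hN n hn.le
  have hfin := Cn_fin hd h4
  have hd0 : (0 : ℝ) < d := by exact_mod_cast (by omega : 0 < d)
  have hp : (0 : ℝ) < (d : ℝ) ^ (n - 1) := by positivity
  rw [lt_div_iff₀ hp] at h2
  have hC : (0 : ℝ) < (Cn d n).ncard := by
    have : (0 : ℝ) < 1 / 2 * (d : ℝ) ^ (n - 1) := by positivity
    linarith
  rw [lt_div_iff₀ hC] at h3
  obtain ⟨S, hS⟩ : ∃ S : Finset ℂ, S = hfin.toFinset := ⟨_, rfl⟩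
  have hSc : ((Cn d n).ncard : ℝ) = S.card := by
    rw [hS, ncard_eq_toFinset_card _ hfin]
  have hsum : ∑ᶠ c ∈ Cn d n, x n c = ∑ c ∈ S, x n c := by
    rw [hS, finsum_mem_eq_finite_toFinset_sum _ hfin]
  have hmemS : ∀ c, c ∈ S ↔ c ∈ Cn d n := by
    intro c
    rw [hS, Set.Finite.mem_toFinset]
  have hG : (({c | c ∈ Cn d n ∧ x n c ≤ η / 4} : Set ℂ).ncard : ℝ) =
      (S.filter (fun c => x n c ≤ η / 4)).card := by
    have e1 : ({c | c ∈ Cn d n ∧ x n c ≤ η / 4} : Set ℂ) =
        ((S.filter (fun c => x n c ≤ η / 4) : Finset ℂ) : Set ℂ) := by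
      ext c
      rw [Finset.mem_coe, Finset.mem_filter, hmemS]
      rfl
    rw [e1, ncard_coe_finset]
  rw [hG, hSc] at h3
  rw [hSc] at hC
  have hsplit := Finset.sum_filter_add_sum_filter_not S (fun c => x n c ≤ η / 4) (x n)
  have hcard := Finset.card_filter_add_card_filter_not (s := S) (fun c => x n c ≤ η / 4)
  have hcardR : ((S.filter (fun c => x n c ≤ η / 4)).card : ℝ) +
      ((S.filter (fun c => ¬ x n c ≤ η / 4)).card : ℝ) = S.card := by exact_mod_cast hcard
  have b1 : ∑ c ∈ S.filter (fun c => x n c ≤ η / 4), x n c ≤ η / 4 * S.card := by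
    calc ∑ c ∈ S.filter (fun c => x n c ≤ η / 4), x n c ≤
        ∑ _c ∈ S.filter (fun c => x n c ≤ η / 4), η / 4 :=
          Finset.sum_le_sum fun c hc => (Finset.mem_filter.1 hc).2
      _ = (S.filter (fun c => x n c ≤ η / 4)).card * (η / 4) := by
          rw [Finset.sum_const, nsmul_eq_mul]
      _ ≤ S.card * (η / 4) := by
          gcongr
          exact Finset.filter_subset _ _
      _ = _ := mul_comm _ _
  have b2 : ∑ c ∈ S.filter (fun c => ¬ x n c ≤ η / 4), x n c ≤ η / 4 * S.card := by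
    calc ∑ c ∈ S.filter (fun c => ¬ x n c ≤ η / 4), x n c ≤
        ∑ _c ∈ S.filter (fun c => ¬ x n c ≤ η / 4), (|K| + 1) := by
          apply Finset.sum_le_sum
          intro c hc
          have h5 := (h1 c ((hmemS c).1 (Finset.mem_filter.1 hc).1)).2
          have h6 := le_abs_self K
          linarith
      _ = (S.filter (fun c => ¬ x n c ≤ η / 4)).card * (|K| + 1) := by
          rw [Finset.sum_const, nsmul_eq_mul]
      _ ≤ (η / (4 * (|K| + 1)) * S.card) * (|K| + 1) := by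
          gcongr
          nlinarith
      _ = _ := by field_simp
  have b3 : 0 ≤ ∑ c ∈ S, x n c :=
    Finset.sum_nonneg fun c hc => (h1 c ((hmemS c).1 hc)).1
  unfold mean
  rw [hsum, hSc, Real.dist_eq, sub_zero, abs_of_nonneg (by positivity), div_lt_iff₀ hC]
  calc ∑ c ∈ S, x n c ≤ η / 4 * S.card + η / 4 * S.card := by
        rw [← hsplit]
        exact add_le_add b1 b2
    _ < η * S.card := by nlinarith

/-! ### Discriminants -/

/-- the critical orbit as polynomials with integer coefficients -/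
noncomputable def PZ (d : ℕ) : ℕ → Polynomial ℤ
  | 0 => 0
  | n + 1 => PZ d n ^ d + Polynomial.X

theorem PZ_map (d n : ℕ) : (PZ d n).map (algebraMap ℤ ℂ) = PP d n := by
  induction n with
  | zero => simp [PZ, PP]
  | succ n ih => simp only [PZ, PP, Polynomial.map_add, Polynomial.map_pow, Polynomial.map_X, ih]

theorem PZ_monic (hd : 2 ≤ d) (n : ℕ) : (PZ d (n + 1)).Monic ∧ (PZ d (n + 1)).natDegree = d ^ n := by
  induction n with
  | zero =>
    have h1 : PZ d (0 + 1) = Polynomial.X := by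
      simp [PZ, zero_pow (show d ≠ 0 by omega)]
    rw [h1]
    exact ⟨Polynomial.monic_X, by simp⟩
  | succ n ih =>
    obtain ⟨h1, h2⟩ := ih
    have h3 : (PZ d (n + 1) ^ d).Monic := h1.pow d
    have h4 : (PZ d (n + 1) ^ d).natDegree = d ^ (n + 1) := by
      rw [h1.natDegree_pow, h2]
      ring
    have h5 : (Polynomial.X : Polynomial ℤ).natDegree < (PZ d (n + 1) ^ d).natDegree := by
      rw [h4, Polynomial.natDegree_X]
      exact Nat.one_lt_pow (by omega) (by omega)
    have h6 : (Polynomial.X : Polynomial ℤ).degree < (PZ d (n + 1) ^ d).degree :=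
      Polynomial.degree_lt_degree h5
    refine ⟨h3.add_of_left h6, ?_⟩
    change (PZ d (n + 1) ^ d + Polynomial.X).natDegree = d ^ (n + 1)
    rw [Polynomial.natDegree_add_eq_left_of_natDegree_lt h5, h4]

/-- the discriminant as a product over the zeros -/
theorem discr_eq (hd : 2 ≤ d) (n : ℕ) : |((PZ d (n + 1)).discr : ℝ)| =
    ∏ a ∈ ZZ d n, ‖deriv (P d (n + 1)) a‖ := by
  classical
  obtain ⟨hm, hdeg⟩ := PZ_monic hd n
  obtain ⟨F, hF⟩ : ∃ F, F = PZ d (n + 1) := ⟨_, rfl⟩
  rw [← hF] at hm hdeg ⊢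
  have hpos : 0 < F.natDegree := by rw [hdeg]; positivity
  have h1 := Polynomial.resultant_deriv (f := F) (Polynomial.natDegree_pos_iff_degree_pos.1 hpos)
  have hmap : F.map (algebraMap ℤ ℂ) = PP d (n + 1) := by rw [hF, PZ_map]
  have hdegC : (PP d (n + 1)).natDegree = F.natDegree := by rw [natDegree_PP hd, hdeg]
  have hmC : (PP d (n + 1)).Monic := by rw [← hmap]; exact hm.map _
  have h2 := Polynomial.resultant_eq_prod_eval (PP d (n + 1)) (PP d (n + 1)).derivative
    (F.natDegree - 1) (by rw [← hdegC]; exact Polynomial.natDegree_derivative_le _)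
    (IsAlgClosed.splits _)
  have h3 : (algebraMap ℤ ℂ) (Polynomial.resultant F F.derivative F.natDegree (F.natDegree - 1)) =
      Polynomial.resultant (PP d (n + 1)) (PP d (n + 1)).derivative (PP d (n + 1)).natDegree
        (F.natDegree - 1) := by
    rw [hdegC, ← hmap, Polynomial.derivative_map, Polynomial.resultant_map_map]
  rw [h2, h1, hm.leadingCoeff, hmC.leadingCoeff, one_pow, one_mul, mul_one] at h3
  have h4 := congrArg norm h3
  have h5 : ‖(algebraMap ℤ ℂ) ((-1) ^ (F.natDegree * (F.natDegree - 1) / 2) * F.discr)‖ =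
      |(F.discr : ℝ)| := by
    rw [map_mul, norm_mul, map_pow, norm_pow, map_neg, map_one, norm_neg, norm_one, one_pow,
      one_mul]
    simp
  rw [h5] at h4
  rw [h4]
  have h6 : ((PP d (n + 1)).roots.map (Polynomial.eval · (PP d (n + 1)).derivative)).prod =
      ∏ a ∈ ZZ d n, deriv (P d (n + 1)) a := by
    unfold ZZ
    rw [Finset.prod_multiset_map_count]
    apply Finset.prod_congr rfl
    intro a ha
    rw [Multiset.count_eq_one_of_mem (nodup hd n) (Multiset.mem_toFinset.1 ha), pow_one]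
    have h7 : P d (n + 1) = fun c => (PP d (n + 1)).eval c := by
      funext c
      rw [eval_PP]
    rw [h7, Polynomial.deriv]
  rw [h6, norm_prod]

theorem log_discr (hd : 2 ≤ d) (n : ℕ) : Real.log |((PZ d (n + 1)).discr : ℝ)| =
    ∑ a ∈ ZZ d n, Real.log ‖deriv (P d (n + 1)) a‖ := by
  rw [discr_eq hd, Real.log_prod]
  intro a ha h0
  have h1 := der_centre hd (by omega : 1 ≤ n + 1) ((mem_ZZ hd).1 ha)
  rw [h0, mul_zero] at h1
  linarith

/-- **The discriminants.** -/
theorem discr_tendsto (hd : 2 ≤ d)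
    (hm : ∀ ε : ℝ, 0 < ε → Tendsto (fun n : ℕ => ({c | c ∈ Cn d n ∧
      |Real.log ‖deriv (P d n) c‖ / n - Real.log d| ≤ ε}.ncard : ℝ) / (Cn d n).ncard) atTop (𝓝 1)) :
    Tendsto (fun n : ℕ => Real.log |((PZ d (n + 1)).discr : ℝ)| /
      ((d : ℝ) ^ n * Real.log ((d : ℝ) ^ n))) atTop (𝓝 1) := by
  classical
  have hdR : (2 : ℝ) ≤ d := by exact_mod_cast hd
  have hd0 : (0 : ℝ) < d := by linarith
  have hlog : 0 < Real.log d := Real.log_pos (by linarith)
  obtain ⟨K, hK⟩ : ∃ K, K = Real.log 4 + Real.log (AA d) + Real.log (3 * d) := ⟨_, rfl⟩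
  have hA := AA_one hd
  have hK0 : 0 < K := by
    have l4 : 0 < Real.log 4 := Real.log_pos (by norm_num)
    have lA : 0 ≤ Real.log (AA d) := Real.log_nonneg hA
    have l3 : 0 ≤ Real.log (3 * d) := Real.log_nonneg (by linarith)
    linarith
  -- the sum over all zeros, divided by `n d ^ (n - 1)`
  have key : Tendsto (fun n : ℕ => Real.log |((PZ d (n + 1)).discr : ℝ)| /
      ((d : ℝ) ^ n * ((n + 1 : ℕ) : ℝ))) atTop (𝓝 (Real.log d)) := by
    rw [Metric.tendsto_atTop']
    intro η hη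
    obtain ⟨ε, hε⟩ : ∃ ε, ε = η / 4 := ⟨_, rfl⟩
    have hε0 : 0 < ε := by rw [hε]; positivity
    obtain ⟨τ, hτ⟩ : ∃ τ, τ = η / (4 * (K + Real.log d)) := ⟨_, rfl⟩
    have hτ0 : 0 < τ := by rw [hτ]; positivity
    have h0 := (card_tendsto hd).eventually_const_lt (show 1 - τ / 2 < 1 by linarith)
    have h00 := (hm ε hε0).eventually_const_lt (show 1 - τ / 2 < 1 by linarith)
    obtain ⟨N, hN⟩ := eventually_atTop.1 (h0.and h00)
    refine ⟨N, fun n hn => ?_⟩
    obtain ⟨h1, h2⟩ := hN (n + 1) (by omega)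
    rw [Nat.add_sub_cancel] at h1
    have hp : (0 : ℝ) < (d : ℝ) ^ n := by positivity
    rw [lt_div_iff₀ hp] at h1
    obtain ⟨G, hG⟩ : ∃ G, G = (ZZ d n).filter (fun c => c ∈ Cn d (n + 1) ∧
      |Real.log ‖deriv (P d (n + 1)) c‖ / ((n + 1 : ℕ) : ℝ) - Real.log d| ≤ ε) := ⟨_, rfl⟩
    have hGc : (({c | c ∈ Cn d (n + 1) ∧
        |Real.log ‖deriv (P d (n + 1)) c‖ / ((n + 1 : ℕ) : ℝ) - Real.log d| ≤ ε} : Set ℂ).ncard : ℝ) =
        G.card := by
      have e1 : ({c | c ∈ Cn d (n + 1) ∧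
          |Real.log ‖deriv (P d (n + 1)) c‖ / ((n + 1 : ℕ) : ℝ) - Real.log d| ≤ ε} : Set ℂ) =
          ((G : Finset ℂ) : Set ℂ) := by
        ext c
        rw [hG, Finset.mem_coe, Finset.mem_filter, mem_ZZ hd]
        constructor
        · rintro ⟨h3, h4⟩
          exact ⟨Pool.Agent.N896.MB.per_zero h3, h3, h4⟩
        · rintro ⟨-, h3, h4⟩
          exact ⟨h3, h4⟩
      rw [e1, ncard_coe_finset]
    rw [hGc] at h2
    have hcard : ((ZZ d n).card : ℝ) ≤ (d : ℝ) ^ n := by exact_mod_cast card_ZZ hd n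
    have hGlow : (1 - τ) * (d : ℝ) ^ n ≤ G.card := by
      rcases le_or_gt 1 (τ / 2) with h3 | h3
      · have h4 : (1 - τ) * (d : ℝ) ^ n ≤ 0 := mul_nonpos_of_nonpos_of_nonneg (by linarith) hp.le
        have h5 : (0 : ℝ) ≤ G.card := Nat.cast_nonneg _
        linarith
      · have h4 : (0 : ℝ) < (Cn d (n + 1)).ncard := lt_of_le_of_lt
          (mul_nonneg (by linarith) hp.le) h1
        rw [lt_div_iff₀ h4] at h2
        have h5 : (1 - τ / 2) * ((1 - τ / 2) * (d : ℝ) ^ n) ≤ (1 - τ / 2) * (Cn d (n + 1)).ncard := by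
          have : 0 ≤ 1 - τ / 2 := by linarith
          gcongr
        have h6 : (1 - τ) * (d : ℝ) ^ n ≤ (1 - τ / 2) * ((1 - τ / 2) * (d : ℝ) ^ n) := by
          have : (1 - τ / 2) * ((1 - τ / 2) * (d : ℝ) ^ n) - (1 - τ) * (d : ℝ) ^ n =
            (τ / 2) ^ 2 * (d : ℝ) ^ n := by ring
          have : 0 ≤ (τ / 2) ^ 2 * (d : ℝ) ^ n := by positivity
          linarith
        linarith
    have hn0 : (0 : ℝ) < ((n + 1 : ℕ) : ℝ) := by positivity
    obtain ⟨m, hmm⟩ : ∃ m : ℝ, m = ((n + 1 : ℕ) : ℝ) := ⟨_, rfl⟩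
    rw [← hmm] at hn0
    -- the number of the zeros
    have hcardZ : ((ZZ d n).card : ℝ) = (d : ℝ) ^ n := by
      have e1 : (ZZ d n).card = d ^ n := by
        unfold ZZ
        rw [Multiset.toFinset_card_of_nodup (nodup hd n), ← natDegree_PP hd n]
        exact (IsAlgClosed.splits (PP d (n + 1))).natDegree_eq_card_roots.symm
      rw [e1]
      push_cast
      ring
    have hdiff : |Real.log |((PZ d (n + 1)).discr : ℝ)| - (d : ℝ) ^ n * (m * Real.log d)| ≤
        (d : ℝ) ^ n * (ε * m) + τ * (d : ℝ) ^ n * ((K + Real.log d) * m) := by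
      rw [log_discr hd]
      have e1 : (d : ℝ) ^ n * (m * Real.log d) = ∑ _a ∈ ZZ d n, m * Real.log d := by
        rw [Finset.sum_const, nsmul_eq_mul, hcardZ]
      rw [e1, ← Finset.sum_sub_distrib]
      refine (Finset.abs_sum_le_sum_abs _ _).trans ?_
      rw [← Finset.sum_filter_add_sum_filter_not (ZZ d n) (fun c => c ∈ Cn d (n + 1) ∧
        |Real.log ‖deriv (P d (n + 1)) c‖ / ((n + 1 : ℕ) : ℝ) - Real.log d| ≤ ε), ← hG]
      apply add_le_add
      · calc ∑ c ∈ G, |Real.log ‖deriv (P d (n + 1)) c‖ - m * Real.log d| ≤ ∑ _c ∈ G, ε * m := by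
              apply Finset.sum_le_sum
              intro c hc
              rw [hG, Finset.mem_filter, ← hmm] at hc
              have h3 := hc.2.2
              have h4 : Real.log ‖deriv (P d (n + 1)) c‖ - m * Real.log d =
                  (Real.log ‖deriv (P d (n + 1)) c‖ / m - Real.log d) * m := by field_simp
              rw [h4, abs_mul, abs_of_pos hn0]
              gcongr
          _ = G.card * (ε * m) := by rw [Finset.sum_const, nsmul_eq_mul]
          _ ≤ (d : ℝ) ^ n * (ε * m) := by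
              gcongr
              refine le_trans ?_ hcard
              rw [hG]
              exact_mod_cast Finset.card_filter_le _ _
      · have e2 := Finset.card_filter_add_card_filter_not (s := ZZ d n) (fun c =>
          c ∈ Cn d (n + 1) ∧
          |Real.log ‖deriv (P d (n + 1)) c‖ / ((n + 1 : ℕ) : ℝ) - Real.log d| ≤ ε)
        rw [← hG] at e2
        have e3 : (G.card : ℝ) + (((ZZ d n).filter (fun c => ¬ (c ∈ Cn d (n + 1) ∧
            |Real.log ‖deriv (P d (n + 1)) c‖ / ((n + 1 : ℕ) : ℝ) - Real.log d| ≤ ε))).card : ℝ) =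
            (ZZ d n).card := by exact_mod_cast e2
        refine le_trans (Finset.sum_le_sum (g := fun _ => (K + Real.log d) * m) ?_) ?_
        · intro c hc
          have h3 := logP_bound hd (by omega : 1 ≤ n + 1) ((mem_ZZ hd).1 (Finset.mem_filter.1 hc).1)
          rw [← hK, ← hmm] at h3
          calc |Real.log ‖deriv (P d (n + 1)) c‖ - m * Real.log d| ≤
              |Real.log ‖deriv (P d (n + 1)) c‖| + |m * Real.log d| := abs_sub _ _
            _ ≤ K * m + m * Real.log d := by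
                rw [abs_of_pos (show 0 < m * Real.log d by positivity)]
                linarith
            _ = _ := by ring
        · rw [Finset.sum_const, nsmul_eq_mul]
          have h4 : 0 ≤ (K + Real.log d) * m := by positivity
          have h5 : (((ZZ d n).filter (fun c => ¬ (c ∈ Cn d (n + 1) ∧
            |Real.log ‖deriv (P d (n + 1)) c‖ / ((n + 1 : ℕ) : ℝ) - Real.log d| ≤ ε))).card : ℝ) ≤
            τ * (d : ℝ) ^ n := by linarith
          exact mul_le_mul_of_nonneg_right h5 h4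
    rw [← hmm, Real.dist_eq]
    have e5 : Real.log |((PZ d (n + 1)).discr : ℝ)| / ((d : ℝ) ^ n * m) - Real.log d =
        (Real.log |((PZ d (n + 1)).discr : ℝ)| - (d : ℝ) ^ n * (m * Real.log d)) /
          ((d : ℝ) ^ n * m) := by field_simp
    rw [e5, abs_div, abs_of_pos (show 0 < (d : ℝ) ^ n * m by positivity), div_lt_iff₀ (by positivity)]
    refine lt_of_le_of_lt hdiff ?_
    have e6 : τ * (d : ℝ) ^ n * ((K + Real.log d) * m) = η / 4 * ((d : ℝ) ^ n * m) := by
      rw [hτ]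
      field_simp
    rw [e6, hε]
    have : 0 < (d : ℝ) ^ n * m := by positivity
    nlinarith
  have h2 : Tendsto (fun n : ℕ => ((n + 1 : ℕ) : ℝ) / n / Real.log d) atTop (𝓝 (1 / Real.log d)) := by
    have h3 : Tendsto (fun n : ℕ => ((n + 1 : ℕ) : ℝ) / n) atTop (𝓝 1) := by
      have h4 := (tendsto_natCast_div_add_atTop (1 : ℝ)).inv₀ one_ne_zero
      rw [inv_one] at h4
      refine h4.congr fun n => ?_
      rw [inv_div]
      push_cast
      rfl
    exact h3.div_const _
  have h3 := key.mul h2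
  rw [mul_one_div_cancel hlog.ne'] at h3
  refine h3.congr' ?_
  filter_upwards [eventually_ge_atTop 1] with n hn
  have hn0 : (0 : ℝ) < n := by exact_mod_cast hn
  have hn1 : (0 : ℝ) < ((n + 1 : ℕ) : ℝ) := by positivity
  have hp : (0 : ℝ) < (d : ℝ) ^ n := by positivity
  rw [Real.log_pow]
  field_simp

end Pool.Agent.N772.TC
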