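import Pool.Agent.N772.TC.Cnt
import Pool.Agent.N772.TC.Harm
import Pool.Agent.N253.MS.Ex
import Pool.Agent.N896.MB.Exact

/-!
# Properties of most superattracting parameters
-/

set_option autoImplicit false

open Set Metric MeasureTheory Filter Topology

namespace Pool.Agent.N772.TC

open Pool.Agent.H713R2 (IsExteriorMap)
open Pool.Agent.H712R2 (P fc PP natDegree_PP eval_PP)
open Pool.Agent.Y736.HD (Ang)
open Pool.Agent.Y298.CA (Lyap)
open Pool.Agent.N896.MB (Ex oh ex_low cen_all per_zero)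
open Pool.Agent.R240.LL (KL KL_pos)

variable {d : ℕ} {ψ : ℂ → ℂ}

/-- the superattracting parameters of exact period `n` -/
def Cn (d n : ℕ) : Set ℂ := {c | Function.minimalPeriod (fc d c) 0 = n}

theorem Cn_fin (hd : 2 ≤ d) {n : ℕ} (hn : 1 ≤ n) : (Cn d n).Finite :=
  (cen_all hd hn).subset fun _ hc => per_zero hc

theorem Cn_card (hd : 2 ≤ d) {n : ℕ} (hn : 1 ≤ n) : ((Cn d n).ncard : ℝ) ≤ (d : ℝ) ^ (n - 1) := by
  classical
  obtain ⟨N, rfl⟩ : ∃ N, n = N + 1 := ⟨n - 1, by omega⟩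
  have h0 : PP d (N + 1) ≠ 0 := by
    intro h
    have h1 := natDegree_PP hd N
    rw [h, Polynomial.natDegree_zero] at h1
    have : 0 < d ^ N := pow_pos (by omega) N
    omega
  have h1 : Cn d (N + 1) ⊆ ((PP d (N + 1)).roots.toFinset : Set ℂ) := by
    intro x hx
    rw [Finset.mem_coe, Multiset.mem_toFinset, Polynomial.mem_roots h0, Polynomial.IsRoot.def,
      eval_PP]
    exact per_zero hx
  have h2 : (Cn d (N + 1)).ncard ≤ d ^ N := by
    refine (ncard_le_ncard h1 (Finset.finite_toSet _)).trans ?_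
    rw [ncard_coe_finset]
    refine (Multiset.toFinset_card_le _).trans ?_
    refine (Polynomial.card_roots' _).trans ?_
    rw [natDegree_PP hd N]
  rw [Nat.add_sub_cancel]
  exact_mod_cast h2

theorem ae_lyap (hd : 2 ≤ d) (hψ : IsExteriorMap (N62a1eb23.multibrotSet d) ψ) :
    ∀ᵐ θ : ℝ, Lyap d (Real.log d) (bd ψ θ) := by
  obtain ⟨β, hβ⟩ := Pool.Agent.H713R2.exists_beta (d := d) hd
  filter_upwards [Pool.Agent.Y272.TY.ae_neg' (Pool.Agent.Y272.TY.typical_all hd hβ)] with θ hθ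
  obtain ⟨c₀, A, R, h⟩ := hθ
  rw [bd_eq (h.tendsto_psi hβ hψ)]
  exact Pool.Agent.Y298.CA.lyap_of_typ hd hβ h

/-- the harmonic measure of the discs about a parameter with the exponent `log d` -/
theorem hm_low (hd : 2 ≤ d) (hψ : IsExteriorMap (N62a1eb23.multibrotSet d) ψ) {c₀ : ℂ}
    (h : Lyap d (Real.log d) c₀) {δ : ℝ} (hδ : 0 < δ) (hδ1 : δ ≤ Real.log d) :
    ∀ᶠ n : ℕ in atTop, Real.exp (-((Real.log d - δ / 4) * n)) ≤
      (hm ψ (ball c₀ (Real.exp (-((Real.log d - δ / 2) * n))))).toReal := by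
  have hχ := h.1
  obtain ⟨χ, hχe⟩ : ∃ χ, χ = Real.log d := ⟨_, rfl⟩
  rw [← hχe] at hχ hδ1 ⊢
  have hε : 0 < δ / (4 * χ) := by positivity
  have h1 := Pool.Agent.Y736.HG.vol_lower hd h hψ hε
  rw [← hχe, div_self hχ.ne'] at h1
  have hpos : 0 < χ - δ / 2 := by linarith
  have hlim : Tendsto (fun n : ℕ => Real.exp (-((χ - δ / 2) * n))) atTop (𝓝[>] 0) := by
    apply tendsto_nhdsWithin_of_tendsto_nhds_of_eventually_within
    · refine Real.tendsto_exp_neg_atTop_nhds_zero.comp ?_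
      exact (tendsto_natCast_atTop_atTop).const_mul_atTop hpos
    · exact Eventually.of_forall fun n => Real.exp_pos _
  filter_upwards [hlim.eventually h1] with n hn
  rw [hm_ball hd hψ]
  refine le_trans ?_ hn
  rw [← Real.exp_mul]
  apply Real.exp_le_exp.2
  have hn0 : (0 : ℝ) ≤ n := Nat.cast_nonneg n
  have e : -((χ - δ / 2) * n) * (1 + δ / (4 * χ)) - (-((χ - δ / 4) * n)) =
      (δ ^ 2 / (8 * χ)) * n := by
    field_simp
    ring
  have : 0 ≤ (δ ^ 2 / (8 * χ)) * n := by positivity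
  linarith

/-- **Transfer principle.** -/
theorem most (hd : 2 ≤ d) (hψ : IsExteriorMap (N62a1eb23.multibrotSet d) ψ) (Q : ℕ → ℂ → Prop)
    (hQ : ∀ᵐ θ : ℝ, ∃ δ : ℝ, 0 < δ ∧ ∀ᶠ n : ℕ in atTop, ∀ c ∈ Cn d n,
      ‖c - bd ψ θ‖ ≤ Real.exp (-((Real.log d - δ) * n)) → Q n c) {η : ℝ} (hη : 0 < η) :
    ∀ᶠ n : ℕ in atTop, (1 - η) * (d : ℝ) ^ (n - 1) ≤ ({c | c ∈ Cn d n ∧ Q n c}.ncard : ℝ) := by
  have hpi := Real.pi_pos
  have hdR : (2 : ℝ) ≤ d := by exact_mod_cast hd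
  have hd0 : (0 : ℝ) < d := by linarith
  obtain ⟨χ, hχe⟩ : ∃ χ, χ = Real.log d := ⟨_, rfl⟩
  have hχ : 0 < χ := by rw [hχe]; exact Real.log_pos (by linarith)
  -- the sets of angles
  obtain ⟨de, hde⟩ : ∃ de : ℕ → ℝ, ∀ m, de m = min χ (1 / ((m : ℝ) + 1)) := ⟨_, fun _ => rfl⟩
  have hde0 : ∀ m, 0 < de m := fun m => by rw [hde]; exact lt_min hχ (by positivity)
  have hdeχ : ∀ m, de m ≤ χ := fun m => by rw [hde]; exact min_le_left _ _
  have hdem : ∀ m, de (m + 1) ≤ de m := by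
    intro m
    rw [hde, hde]
    apply min_le_min_left
    apply one_div_le_one_div_of_le (by positivity)
    push_cast
    linarith
  obtain ⟨A1, hA1⟩ : ∃ A1 : ℕ → ℕ → ℝ → Prop, ∀ m n θ, A1 m n θ ↔ ∀ c ∈ Cn d n,
      ‖c - bd ψ θ‖ ≤ Real.exp (-((χ - de m) * n)) → Q n c := ⟨_, fun _ _ _ => Iff.rfl⟩
  obtain ⟨A2, hA2⟩ : ∃ A2 : ℕ → ℕ → ℝ → Prop, ∀ m n θ, A2 m n θ ↔
      Real.exp (-((χ - de m / 4) * n)) ≤
      (hm ψ (ball (bd ψ θ) (Real.exp (-((χ - de m / 2) * n))))).toReal := ⟨_, fun _ _ _ => Iff.rfl⟩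
  obtain ⟨W, hW⟩ : ∃ W : ℕ → ℕ → Set ℝ, ∀ m N, W m N = {θ | bd ψ θ ∈ N62a1eb23.multibrotSet d ∧
      ∀ n ≥ N, A1 m n θ ∧ A2 m n θ} := ⟨_, fun _ _ => rfl⟩
  obtain ⟨U, hU⟩ : ∃ U : ℕ → Set ℝ, ∀ m, U m = {θ | Lyap d χ (bd ψ θ) ∧ ∀ᶠ n : ℕ in atTop,
      A1 m n θ} := ⟨_, fun _ => rfl⟩
  have hUmono : Monotone U := by
    apply monotone_nat_of_le_succ
    intro m θ hθ
    rw [hU] at hθ ⊢
    refine ⟨hθ.1, ?_⟩
    filter_upwards [hθ.2] with n hn
    rw [hA1] at hn ⊢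
    intro c hc hcc
    apply hn c hc
    refine hcc.trans (Real.exp_le_exp.2 ?_)
    have hn0 : (0 : ℝ) ≤ n := Nat.cast_nonneg n
    have : (χ - de m) * n ≤ (χ - de (m + 1)) * n := by
      have := hdem m
      gcongr
    linarith
  have hWmono : ∀ m, Monotone (W m) := by
    intro m N N' hNN θ hθ
    rw [hW] at hθ ⊢
    exact ⟨hθ.1, fun n hn => hθ.2 n (hNN.trans hn)⟩
  have hUW : ∀ m, U m ⊆ ⋃ N, W m N := by
    intro m θ hθ
    rw [hU] at hθ
    obtain ⟨h1, h2⟩ := hθ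
    have h3 : ∀ᶠ n : ℕ in atTop, A2 m n θ := by
      have h1' := h1
      rw [hχe] at h1'
      filter_upwards [hm_low hd hψ h1' (hde0 m) (by rw [← hχe]; exact hdeχ m)] with n hn
      rw [hA2, hχe]
      exact hn
    obtain ⟨N, hN⟩ := eventually_atTop.1 (h2.and h3)
    refine mem_iUnion.2 ⟨N, ?_⟩
    rw [hW]
    exact ⟨h1.2.1, fun n hn => hN n hn⟩
  obtain ⟨μ, hμ⟩ : ∃ μ : Measure ℝ, μ = volume.restrict (Ioc 0 (2 * Real.pi)) := ⟨_, rfl⟩
  have : IsFiniteMeasure μ := by rw [hμ]; infer_instance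
  have hμ1 : μ univ = ENNReal.ofReal (2 * Real.pi) := by rw [hμ]; simp
  have hUall : μ (⋃ m, U m) = μ univ := by
    apply measure_congr
    have h1 : ∀ᵐ θ ∂μ, θ ∈ ⋃ m, U m := by
      rw [hμ]
      apply ae_restrict_of_ae
      filter_upwards [hQ, ae_lyap hd hψ] with θ hθ hθ2
      obtain ⟨δ, hδ, h2⟩ := hθ
      obtain ⟨m, hm⟩ := exists_nat_one_div_lt hδ
      refine mem_iUnion.2 ⟨m, ?_⟩
      rw [hU]
      refine ⟨by rw [hχe]; exact hθ2, ?_⟩
      filter_upwards [h2] with n hn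
      rw [hA1]
      intro c hc hcc
      apply hn c hc
      refine hcc.trans (Real.exp_le_exp.2 ?_)
      have hn0 : (0 : ℝ) ≤ n := Nat.cast_nonneg n
      have h4 : de m ≤ δ := by rw [hde]; exact (min_le_right _ _).trans hm.le
      have : (χ - δ) * n ≤ (χ - de m) * n := by gcongr
      rw [← hχe]
      linarith
    filter_upwards [h1] with θ hθ
    exact propext ⟨fun _ => trivial, fun _ => hθ⟩
  -- a large set of angles
  obtain ⟨η', hη'⟩ : ∃ η', η' = min (η / 5) (1 / 10) := ⟨_, rfl⟩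
  have hη0 : 0 < η' := by rw [hη']; exact lt_min (by positivity) (by norm_num)
  have hη5 : 5 * η' ≤ η := by
    have : η' ≤ η / 5 := by rw [hη']; exact min_le_left _ _
    linarith
  have hη10 : η' < 1 / 5 := by
    have : η' ≤ 1 / 10 := by rw [hη']; exact min_le_right _ _
    linarith
  have hlt1 : ENNReal.ofReal ((1 - η') * (2 * Real.pi)) < μ (⋃ m, U m) := by
    rw [hUall, hμ1]
    apply (ENNReal.ofReal_lt_ofReal_iff (by positivity)).2
    nlinarith
  obtain ⟨m, hmm⟩ := ((tendsto_measure_iUnion_atTop (μ := μ) hUmono).eventually_const_lt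
    hlt1).exists
  have hlt2 : ENNReal.ofReal ((1 - η') * (2 * Real.pi)) < μ (⋃ N, W m N) :=
    hmm.trans_le (measure_mono (hUW m))
  obtain ⟨N, hN⟩ := ((tendsto_measure_iUnion_atTop (μ := μ) (hWmono m)).eventually_const_lt
    hlt2).exists
  have hN' : (1 - η') * (2 * Real.pi) ≤ (volume (W m N ∩ Ioc 0 (2 * Real.pi))).toReal := by
    have h1 : ENNReal.ofReal ((1 - η') * (2 * Real.pi)) ≤ volume (W m N ∩ Ioc 0 (2 * Real.pi)) := by
      have h2 := hN.le
      simp only [Function.comp_apply] at h2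
      rwa [hμ, Measure.restrict_apply₀' measurableSet_Ioc.nullMeasurableSet] at h2
    have h3 : volume (W m N ∩ Ioc 0 (2 * Real.pi)) ≠ ⊤ := by
      refine ne_top_of_le_ne_top ?_ (measure_mono inter_subset_right)
      rw [Real.volume_Ioc]
      exact ENNReal.ofReal_ne_top
    rw [ENNReal.ofReal_le_iff_le_toReal h3] at h1
    exact h1
  -- the counting theorem
  have hK0 := KL_pos
  have hcnt := count (ν := hm ψ) (χ := χ) (δ₀ := de m) (η := η') (K := 32 * (KL + 1) * Real.log d)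
    (c₁ := 1 / (2 * Real.pi * d)) (V := 2 * Real.pi) (hde0 m) (hdeχ m) hη0 hη10
    (by have : 0 < Real.log d := by rw [← hχe]; exact hχ
        positivity) (by positivity) (hm_univ hd hψ)
    (by positivity) (Cn d) (fun n => {c | c ∈ Cn d n ∧ Q n c}) (fun n hn => Cn_fin hd hn)
    (fun n c hc => hc.1) (fun n => (d : ℝ) ^ (1 - (n : ℝ) / 4)) (by
      have h1 : Tendsto (fun n : ℕ => Real.exp (-(χ / 4 * (n : ℝ) - χ))) atTop (𝓝 0) := by
        refine Real.tendsto_exp_neg_atTop_nhds_zero.comp ?_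
        apply tendsto_atTop_add_const_right
        exact (tendsto_natCast_atTop_atTop).const_mul_atTop (by positivity)
      refine h1.congr fun n => ?_
      rw [Real.rpow_def_of_pos hd0, ← hχe]
      congr 1
      ring) (N62a1eb23.multibrotSet d) (by
      intro n hn x hx r δ hr hδ0 hδ1
      have h1 := ex_low hd hψ hx hn hr hδ0 hδ1
      have e1 : Ex d n x ((1 + δ) * r) = Cn d n ∩ ball x ((1 + δ) * r) := by
        ext c
        exact ⟨fun h => ⟨h.2, h.1⟩, fun h => ⟨h.2, h.1⟩⟩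
      have e2 : (d : ℝ) ^ (n - 1) * oh ψ x r =
          1 / (2 * Real.pi * d) * Real.exp (χ * n) * (hm ψ (ball x r)).toReal := by
        have e3 : Real.exp (χ * n) = (d : ℝ) ^ (n - 1) * d := by
          rw [← pow_succ, Nat.sub_add_cancel hn, hχe, mul_comm, Real.exp_nat_mul,
            Real.exp_log hd0]
        rw [e3, hm_ball hd hψ]
        unfold oh
        field_simp
      rw [e1, e2] at h1
      refine h1.trans (le_of_eq ?_)
      ring)
    (fun n => {x | x ∈ N62a1eb23.multibrotSet d ∧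
      (∀ c ∈ Cn d n, ‖c - x‖ ≤ Real.exp (-((χ - de m) * n)) → Q n c) ∧
      Real.exp (-((χ - de m / 4) * n)) ≤
      (hm ψ (ball x (Real.exp (-((χ - de m / 2) * n))))).toReal})
    (Eventually.of_forall fun n x hx => ⟨hx.1, fun c hc hcc => ⟨hc, hx.2.1 c hc hcc⟩, hx.2.2⟩)
    (by
      filter_upwards [eventually_ge_atTop N] with n hn
      refine hN'.trans ?_
      apply le_hm hd hψ
      intro θ hθ _
      rw [hW] at hθ
      obtain ⟨h1, h2⟩ := hθ
      obtain ⟨h3, h4⟩ := h2 n hn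
      rw [hA1] at h3
      rw [hA2] at h4
      exact ⟨h1, h3, h4⟩)
  filter_upwards [hcnt, eventually_ge_atTop 1] with n hn hn1
  refine le_trans ?_ hn
  have e3 : Real.exp (χ * n) = (d : ℝ) ^ (n - 1) * d := by
    rw [← pow_succ, Nat.sub_add_cancel hn1, hχe, mul_comm, Real.exp_nat_mul, Real.exp_log hd0]
  have e4 : 1 / (2 * Real.pi * d) * (2 * Real.pi) * Real.exp (χ * n) = (d : ℝ) ^ (n - 1) := by
    rw [e3]
    field_simp
  rw [e4]
  have : (0 : ℝ) ≤ (d : ℝ) ^ (n - 1) := by positivity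
  gcongr

end Pool.Agent.N772.TC
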