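import Pool.Agent.N772.TC.Most

/-!
# Properties of the discs about the superattracting parameters next to `c₀`
-/

set_option autoImplicit false

open Set Metric MeasureTheory Filter Topology

namespace Pool.Agent.N772.TC

open Pool.Agent.H713R2 (IsExteriorMap)
open Pool.Agent.H712R2 (P fc)
open Pool.Agent.Y736.HD (Ang)
open Pool.Agent.Y298.CA (Lyap Scal scal_all)
open Pool.Agent.N896.MB (Ex low_ex up_ex)
open Pool.Agent.N253.MS (ex_centre)

variable {d : ℕ} {ψ : ℂ → ℂ}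

/-- A power law at `c₀` holds at all points next to `c₀`. -/
theorem near_law {F : ℂ → ℝ → ℝ} {V κ χ : ℝ} {c₀ : ℂ} (hχ : 0 < χ) (hκ : 0 < κ)
    (hF : ∀ c c' : ℂ, ∀ r s : ℝ, ball c r ⊆ ball c' s → F c r ≤ F c' s) (hV : ∀ c r, F c r ≤ V)
    (h : ∀ ε : ℝ, 0 < ε → ε < κ → ∀ᶠ r : ℝ in 𝓝[>] 0,
      r ^ (κ + ε) ≤ F c₀ r ∧ F c₀ r ≤ r ^ (κ - ε)) {ε : ℝ} (hε : 0 < ε) (hε1 : ε < 1) :
    ∃ δ : ℝ, 0 < δ ∧ ∀ᶠ n : ℕ in atTop, ∀ c : ℂ, ‖c - c₀‖ ≤ Real.exp (-((χ - δ) * n)) →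
      ∀ r : ℝ, Real.exp (-((1 - ε) * χ * n)) ≤ r → r ≤ 1 →
        Real.exp (-(ε * χ * n)) * r ^ κ ≤ F c r ∧ F c r ≤ Real.exp (ε * χ * n) * r ^ κ := by
  obtain ⟨e, he⟩ : ∃ e, e = min (ε / 2) (κ / 2) := ⟨_, rfl⟩
  have he0 : 0 < e := by rw [he]; exact lt_min (by positivity) (by positivity)
  have he1 : e ≤ ε / 2 := by rw [he]; exact min_le_left _ _
  have he2 : e ≤ κ / 2 := by rw [he]; exact min_le_right _ _
  obtain ⟨r₂, hr₂, H⟩ := (mem_nhdsGT_iff_exists_Ioo_subset).1 (h e he0 (by linarith))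
  simp only [mem_Ioi] at hr₂
  obtain ⟨r₁, hr₁⟩ : ∃ r₁, r₁ = r₂ / 4 := ⟨_, rfl⟩
  have hr₁0 : 0 < r₁ := by rw [hr₁]; positivity
  refine ⟨ε * χ / 2, by positivity, ?_⟩
  have hpos : 0 < ε * χ / 2 := by positivity
  have hpos2 : 0 < ε * χ := by positivity
  have hpos3 : 0 < (1 - ε) * χ := mul_pos (by linarith) hχ
  filter_upwards [ev_lin hpos (Real.log 2), ev_lin hpos (Real.log (2 ^ (κ + e))),
    ev_lin hpos3 (-Real.log r₁), ev_lin hpos2 (Real.log (max V 1 / r₁ ^ κ)),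
    ev_lin hpos2 (Real.log ((2 / r₁) ^ (κ + e)))] with n hn1 hn2 hn3 hn4 hn5 c hc
  have hn0 : (0 : ℝ) ≤ n := Nat.cast_nonneg n
  have h2 : 2 * Real.exp (-((χ - ε * χ / 2) * n)) ≤ Real.exp (-((1 - ε) * χ * n)) := by
    calc _ = Real.exp (Real.log 2) * Real.exp (-((χ - ε * χ / 2) * n)) := by
          rw [Real.exp_log (by norm_num)]
      _ ≤ Real.exp (ε * χ / 2 * n) * Real.exp (-((χ - ε * χ / 2) * n)) := by gcongr
      _ = _ := by rw [← Real.exp_add]; congr 1; ring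
  have hsmall : ∀ r : ℝ, Real.exp (-((1 - ε) * χ * n)) ≤ r → r ≤ r₁ →
      (r / 2) ^ (κ + e) ≤ F c r ∧ F c r ≤ (2 * r) ^ (κ - e) := by
    intro r hr1 hr2
    have hr0 : 0 < r := (Real.exp_pos _).trans_le hr1
    have hcr : ‖c - c₀‖ ≤ r / 2 := by linarith
    constructor
    · refine (H (a := r / 2) ⟨by positivity, by rw [hr₁] at hr2; linarith⟩).1.trans ?_
      apply hF
      apply ball_subset_ball'
      rw [dist_comm, dist_eq_norm]
      linarith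
    · refine le_trans ?_ (H (a := 2 * r) ⟨by positivity, by rw [hr₁] at hr2; linarith⟩).2
      apply hF
      apply ball_subset_ball'
      rw [dist_eq_norm]
      linarith
  have hκe : (2 : ℝ) ^ (κ + e) ≤ Real.exp (ε * χ / 2 * n) := by
    rw [← Real.exp_log (show (0 : ℝ) < 2 ^ (κ + e) by positivity)]
    exact Real.exp_le_exp.2 hn2.le
  have hrr : ∀ r : ℝ, Real.exp (-((1 - ε) * χ * n)) ≤ r → r ≤ 1 →
      Real.exp (-(ε * χ / 2 * n)) ≤ r ^ e ∧ r ^ (-e) ≤ Real.exp (ε * χ / 2 * n) := by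
    intro r hr1 hr2
    have hr0 : 0 < r := (Real.exp_pos _).trans_le hr1
    have h3 : Real.exp (-(ε * χ / 2 * n)) ≤ r ^ e := by
      calc Real.exp (-(ε * χ / 2 * n)) ≤ Real.exp (-((1 - ε) * χ * n) * e) := by
            apply Real.exp_le_exp.2
            have h4 : (1 - ε) * χ * n * e ≤ 1 * χ * n * (ε / 2) := by
              gcongr
              linarith
            linarith
        _ = Real.exp (-((1 - ε) * χ * n)) ^ e := by rw [Real.exp_mul]
        _ ≤ _ := by gcongr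
    refine ⟨h3, ?_⟩
    rw [Real.rpow_neg hr0.le]
    have h4 : (r ^ e)⁻¹ ≤ (Real.exp (-(ε * χ / 2 * n)))⁻¹ := by gcongr
    rwa [← Real.exp_neg, neg_neg] at h4
  intro r hr1 hr2
  have hr0 : 0 < r := (Real.exp_pos _).trans_le hr1
  rcases le_total r r₁ with hr3 | hr3
  · obtain ⟨h3, h4⟩ := hsmall r hr1 hr3
    obtain ⟨h5, h6⟩ := hrr r hr1 hr2
    constructor
    · refine le_trans ?_ h3
      rw [Real.div_rpow hr0.le (by norm_num), Real.rpow_add hr0, le_div_iff₀ (by positivity)]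
      calc Real.exp (-(ε * χ * n)) * r ^ κ * 2 ^ (κ + e) ≤
          Real.exp (-(ε * χ * n)) * r ^ κ * Real.exp (ε * χ / 2 * n) := by gcongr
        _ = r ^ κ * (Real.exp (-(ε * χ * n)) * Real.exp (ε * χ / 2 * n)) := by ring
        _ = r ^ κ * Real.exp (-(ε * χ / 2 * n)) := by
            rw [← Real.exp_add]; congr 2; ring
        _ ≤ _ := by gcongr
    · refine h4.trans ?_
      rw [Real.mul_rpow (by norm_num) hr0.le, sub_eq_add_neg, Real.rpow_add hr0]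
      have h7 : (2 : ℝ) ^ (κ + -e) ≤ Real.exp (ε * χ / 2 * n) := by
        refine le_trans ?_ hκe
        apply Real.rpow_le_rpow_of_exponent_le (by norm_num)
        linarith
      calc (2 : ℝ) ^ (κ + -e) * (r ^ κ * r ^ (-e)) ≤
          Real.exp (ε * χ / 2 * n) * (r ^ κ * Real.exp (ε * χ / 2 * n)) := by gcongr
        _ = (Real.exp (ε * χ / 2 * n) * Real.exp (ε * χ / 2 * n)) * r ^ κ := by ring
        _ = _ := by rw [← Real.exp_add]; congr 2; ring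
  · have hr₁e : Real.exp (-((1 - ε) * χ * n)) ≤ r₁ := by
      rw [← Real.exp_log hr₁0]
      apply Real.exp_le_exp.2
      linarith
    obtain ⟨h3, -⟩ := hsmall r₁ hr₁e le_rfl
    have hr1' : r₁ ≤ 1 := hr3.trans hr2
    constructor
    · have h4 : Real.exp (-(ε * χ * n)) ≤ (r₁ / 2) ^ (κ + e) := by
        rw [Real.exp_neg]
        have h5 : (2 / r₁) ^ (κ + e) ≤ Real.exp (ε * χ * n) := by
          rw [← Real.exp_log (show (0 : ℝ) < (2 / r₁) ^ (κ + e) by positivity)]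
          exact Real.exp_le_exp.2 hn5.le
        have h6 : (r₁ / 2) ^ (κ + e) = ((2 / r₁) ^ (κ + e))⁻¹ := by
          rw [← Real.inv_rpow (by positivity), inv_div]
        rw [h6]
        gcongr
      calc Real.exp (-(ε * χ * n)) * r ^ κ ≤ (r₁ / 2) ^ (κ + e) * 1 := by
            gcongr
            exact Real.rpow_le_one hr0.le hr2 hκ.le
        _ = (r₁ / 2) ^ (κ + e) := mul_one _
        _ ≤ F c r₁ := h3
        _ ≤ F c r := hF _ _ _ _ (ball_subset_ball hr3)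
    · refine (hV c r).trans ?_
      have h4 : max V 1 / r₁ ^ κ ≤ Real.exp (ε * χ * n) := by
        rw [← Real.exp_log (show (0 : ℝ) < max V 1 / r₁ ^ κ by positivity)]
        exact Real.exp_le_exp.2 hn4.le
      rw [div_le_iff₀ (by positivity)] at h4
      calc V ≤ max V 1 := le_max_left _ _
        _ ≤ Real.exp (ε * χ * n) * r₁ ^ κ := h4
        _ ≤ _ := by gcongr

/-- harmonic measure -/
theorem near_harm (hd : 2 ≤ d) (hψ : IsExteriorMap (N62a1eb23.multibrotSet d) ψ) {c₀ : ℂ}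
    (h : Lyap d (Real.log d) c₀) {ε : ℝ} (hε : 0 < ε) (hε1 : ε < 1) :
    ∃ δ : ℝ, 0 < δ ∧ ∀ᶠ n : ℕ in atTop, ∀ c : ℂ,
      ‖c - c₀‖ ≤ Real.exp (-((Real.log d - δ) * n)) →
      ∀ r : ℝ, Real.exp (-((1 - ε) * Real.log d * n)) ≤ r → r ≤ 1 →
        Real.exp (-(ε * Real.log d * n)) * r ≤ (volume (Ang ψ c r)).toReal ∧
        (volume (Ang ψ c r)).toReal ≤ Real.exp (ε * Real.log d * n) * r := by
  have hχ := h.1
  obtain ⟨δ, hδ, H⟩ := near_law (F := fun c r => (volume (Ang ψ c r)).toReal) (V := 2 * Real.pi)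
    (κ := 1) (c₀ := c₀) hχ one_pos (by
      intro c c' r s hrs
      rw [← hm_ball hd hψ, ← hm_ball hd hψ]
      exact ENNReal.toReal_mono (measure_ne_top _ _) (measure_mono hrs)) (by
      intro c r
      rw [← hm_ball hd hψ, ← hm_univ hd hψ]
      exact ENNReal.toReal_mono (measure_ne_top _ _) (measure_mono (subset_univ _))) (by
      intro e he he1
      have h1 := Pool.Agent.Y736.HG.vol_lower hd h hψ he
      have h2 := Pool.Agent.Y736.HG.vol_upper hd h hψ he (by rw [div_self hχ.ne']; exact he1)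
      rw [div_self hχ.ne'] at h1 h2
      exact h1.and h2) hε hε1
  refine ⟨δ, hδ, ?_⟩
  filter_upwards [H] with n hn c hc r hr1 hr2
  have := hn c hc r hr1 hr2
  rwa [Real.rpow_one] at this

/-- from limits of logarithms to power laws -/
theorem law_of_log {F : ℝ → ℝ} {κ : ℝ} (hF : ∀ᶠ r : ℝ in 𝓝[>] 0, 0 < F r)
    (h : Tendsto (fun r : ℝ => Real.log (F r) / Real.log r) (𝓝[>] 0) (𝓝 κ)) {ε : ℝ} (hε : 0 < ε) :
    ∀ᶠ r : ℝ in 𝓝[>] 0, r ^ (κ + ε) ≤ F r ∧ F r ≤ r ^ (κ - ε) := by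
  have h1 : ∀ᶠ r : ℝ in 𝓝[>] 0, r ∈ Ioo (0 : ℝ) 1 := Ioo_mem_nhdsGT one_pos
  filter_upwards [hF, h1, h.eventually (Ioo_mem_nhds (show κ - ε < κ by linarith)
    (show κ < κ + ε by linarith))] with r hr hr1 hr2
  have hl : Real.log r < 0 := Real.log_neg hr1.1 hr1.2
  obtain ⟨h2, h3⟩ := hr2
  rw [lt_div_iff_of_neg hl] at h2
  rw [div_lt_iff_of_neg hl] at h3
  rw [Real.rpow_def_of_pos hr1.1, Real.rpow_def_of_pos hr1.1]
  constructor
  · rw [← Real.le_log_iff_exp_le hr]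
    linarith
  · rw [← Real.log_le_iff_le_exp hr]
    linarith

/-- the number of the superattracting parameters -/
theorem near_num (hd : 2 ≤ d) {c₀ : ℂ} (h : Lyap d (Real.log d) c₀) {ε : ℝ} (hε : 0 < ε)
    (hε1 : ε < Real.log d) :
    ∃ δ : ℝ, 0 < δ ∧ ∀ᶠ n : ℕ in atTop, ∀ c ∈ Cn d n,
      ‖c - c₀‖ ≤ Real.exp (-((Real.log d - δ) * n)) → ∀ r : ℝ, 0 < r → r ≤ 1 →
        (d : ℝ) ^ n * r ≤ Real.exp (ε * n) * ((Cn d n ∩ ball c r).ncard : ℝ) ∧
        ((Cn d n ∩ ball c r).ncard : ℝ) ≤ Real.exp (ε * n) * (1 + (d : ℝ) ^ n * r) := by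
  have hχ := h.1
  have hdR : (2 : ℝ) ≤ d := by exact_mod_cast hd
  have hd0 : (0 : ℝ) < d := by linarith
  have hε4 : 0 < ε / 4 := by positivity
  refine ⟨ε / 4, hε4, ?_⟩
  filter_upwards [low_ex hd h hε4, up_ex hd h hε4, eventually_ge_atTop 1, ev_lin hε4 (Real.log 4),
    ev_lin (show 0 < Real.log d - ε / 4 by linarith) (Real.log 2)]
    with n hn1 hn2 hn3 hn4 hn5 c hc hcc r hr0 hr1
  rw [div_self hχ.ne'] at hn1 hn2
  have hn0 : (0 : ℝ) ≤ n := Nat.cast_nonneg n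
  have hfin := Cn_fin hd hn3
  obtain ⟨ρ, hρ⟩ : ∃ ρ, ρ = Real.exp (-((Real.log d - ε / 4) * n)) := ⟨_, rfl⟩
  have hρ0 : 0 < ρ := by rw [hρ]; exact Real.exp_pos _
  rw [← hρ] at hcc
  have hdn : (d : ℝ) ^ n = Real.exp (Real.log d * n) := by
    rw [mul_comm, Real.exp_nat_mul, Real.exp_log hd0]
  have hdρ : (d : ℝ) ^ n * ρ = Real.exp (ε / 4 * n) := by
    rw [hdn, hρ, ← Real.exp_add]
    congr 1
    ring
  have h4 : 4 ≤ Real.exp (ε / 4 * n) := by
    calc (4 : ℝ) = Real.exp (Real.log 4) := (Real.exp_log (by norm_num)).symm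
      _ ≤ _ := Real.exp_le_exp.2 hn4.le
  have hρ2 : ρ ≤ 1 / 2 := by
    rw [hρ, Real.exp_neg, one_div]
    have : (2 : ℝ) ≤ Real.exp ((Real.log d - ε / 4) * n) := by
      rw [← Real.exp_log (show (0 : ℝ) < 2 by norm_num)]
      exact Real.exp_le_exp.2 hn5.le
    gcongr
  have hEx : ∀ x s, Ex d n x s = Cn d n ∩ ball x s := by
    intro x s
    ext c
    exact ⟨fun h => ⟨h.2, h.1⟩, fun h => ⟨h.2, h.1⟩⟩
  have hmono : ∀ x y s t, ball x s ⊆ ball y t →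
      ((Cn d n ∩ ball x s).ncard : ℝ) ≤ ((Cn d n ∩ ball y t).ncard : ℝ) := by
    intro x y s t hst
    exact_mod_cast ncard_le_ncard (inter_subset_inter_right _ hst)
      (hfin.subset inter_subset_left)
  have hone : (1 : ℝ) ≤ ((Cn d n ∩ ball c r).ncard : ℝ) := by
    have : 0 < (Cn d n ∩ ball c r).ncard := by
      rw [ncard_pos (hfin.subset inter_subset_left)]
      exact ⟨c, hc, mem_ball_self hr0⟩
    exact_mod_cast this
  obtain ⟨x, hx⟩ : ∃ x, x = Real.exp (ε / 4 * n) := ⟨_, rfl⟩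
  have hx4 : Real.exp (ε * n) = x * x * (x * x) := by
    rw [hx, ← Real.exp_add, ← Real.exp_add]
    congr 1
    ring
  rw [← hx] at hdρ h4 hn1 hn2
  rw [hx4]
  obtain ⟨N, hN⟩ : ∃ N : ℝ, N = ((Cn d n ∩ ball c r).ncard : ℝ) := ⟨_, rfl⟩
  rw [← hN] at hone ⊢
  have hx1 : 1 ≤ x := by linarith
  constructor
  · rcases le_total r (4 * ρ) with hr | hr
    · calc (d : ℝ) ^ n * r ≤ (d : ℝ) ^ n * (4 * ρ) := by gcongr
        _ = 4 * x * (1 * 1) * 1 := by rw [← hdρ]; ring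
        _ ≤ x * x * (x * x) * N := by gcongr
    · have h5 := hn1 (r / 2) (by positivity) (by linarith)
      rw [Real.rpow_one, hEx] at h5
      have h6 := hmono c₀ c (r / 2) r (by
        apply ball_subset_ball'
        rw [dist_comm, dist_eq_norm]
        linarith)
      rw [← hN] at h6
      have h7 : 1 + ((Cn d n ∩ ball c₀ (r / 2)).ncard : ℝ) ≤ 2 * N := by linarith
      calc (d : ℝ) ^ n * r = 2 * ((d : ℝ) ^ n * (r / 2)) := by ring
        _ ≤ 2 * (x * (1 + ((Cn d n ∩ ball c₀ (r / 2)).ncard : ℝ))) := by gcongr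
        _ ≤ 2 * (x * (2 * N)) := by gcongr
        _ = x * 4 * (1 * 1) * N := by ring
        _ ≤ x * x * (x * x) * N := by gcongr
  · rcases le_total (r + ρ) 1 with hr | hr
    · have h5 := hn2 (r + ρ) (by positivity) hr
      rw [Real.rpow_one, hEx] at h5
      have h6 := hmono c c₀ r (r + ρ) (by
        apply ball_subset_ball'
        rw [dist_eq_norm]
        linarith)
      rw [← hN] at h6
      have h8 : 0 ≤ (d : ℝ) ^ n * r := by positivity
      calc N ≤ x * (1 + (d : ℝ) ^ n * (r + ρ)) := h6.trans h5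
        _ = x * (1 + (d : ℝ) ^ n * r + x) := by rw [← hdρ]; ring
        _ ≤ x * (2 * (x * (1 + (d : ℝ) ^ n * r))) := by
            gcongr
            nlinarith
        _ = x * x * (2 * 1) * (1 + (d : ℝ) ^ n * r) := by ring
        _ ≤ _ := by
            gcongr
            linarith
    · have h5 : N ≤ (d : ℝ) ^ (n - 1) := by
        rw [hN]
        refine le_trans ?_ (Cn_card hd hn3)
        exact_mod_cast ncard_le_ncard inter_subset_left hfin
      have h6 : (d : ℝ) ^ (n - 1) * 2 ≤ (d : ℝ) ^ n := by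
        calc (d : ℝ) ^ (n - 1) * 2 ≤ (d : ℝ) ^ (n - 1) * d := by gcongr
          _ = (d : ℝ) ^ n := by rw [← pow_succ, Nat.sub_add_cancel hn3]
      have h7 : 1 / 2 ≤ r := by linarith
      have h8 : N ≤ (d : ℝ) ^ n * r := by
        calc N ≤ (d : ℝ) ^ (n - 1) * 2 * (1 / 2) := by linarith
          _ ≤ (d : ℝ) ^ n * r := by gcongr
      calc N ≤ 1 * 1 * (1 * 1) * (1 + (d : ℝ) ^ n * r) := by linarith
        _ ≤ _ := by gcongr

/-- density of hyperbolicity and of the complement -/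
theorem near_dens (hd : 2 ≤ d) {c₀ : ℂ} (h : Lyap d (Real.log d) c₀) {ε : ℝ} (hε : 0 < ε)
    (hε1 : ε < 1) :
    ∃ δ : ℝ, 0 < δ ∧ ∀ᶠ n : ℕ in atTop, ∀ c : ℂ,
      ‖c - c₀‖ ≤ Real.exp (-((Real.log d - δ) * n)) →
      ∀ r : ℝ, Real.exp (-((1 - ε) * Real.log d * n)) ≤ r → r ≤ 1 →
      ∀ c' ∈ N62a1eb23.multibrotSet d, ‖c' - c‖ ≤ r →
        (∃ p : ℕ, 1 ≤ p ∧ ∃ c'' ∈ Cn d p,
          ‖c'' - c'‖ ≤ Real.exp (ε * Real.log d * n) * r ^ ((d : ℝ) / ((d : ℝ) - 1))) ∧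
        (∃ c'' ∉ N62a1eb23.multibrotSet d,
          ‖c'' - c'‖ ≤ Real.exp (ε * Real.log d * n) * r ^ ((d : ℝ) / ((d : ℝ) - 1))) := by
  have hχ := h.1
  have hdR : (2 : ℝ) ≤ d := by exact_mod_cast hd
  have hd1 : 0 < (d : ℝ) - 1 := by linarith
  obtain ⟨E, hE⟩ : ∃ E : ℝ, E = (d : ℝ) / ((d : ℝ) - 1) := ⟨_, rfl⟩
  rw [← hE]
  have hE1 : 1 < E := by
    rw [hE, lt_div_iff₀ hd1]
    linarith
  obtain ⟨χ, hχe⟩ : ∃ χ, χ = Real.log d := ⟨_, rfl⟩
  have hdens := (scal_all hd h).dens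
  rw [← hχe] at hχ ⊢
  have hσ1 : 0 < E - ε / 2 := by linarith
  obtain ⟨C, hC, HC⟩ := hdens (E - ε / 2) hσ1.le (by rw [← hE]; linarith)
  -- all points of the Multibrot set
  have hall : ∀ κ : ℝ, 0 < κ → ∀ c' ∈ N62a1eb23.multibrotSet d,
      (∃ p : ℕ, 1 ≤ p ∧ ∃ c'' ∈ Cn d p, ‖c'' - c'‖ ≤ C * ‖c' - c₀‖ ^ (E - ε / 2) + κ) ∧
      (∃ c'' ∉ N62a1eb23.multibrotSet d, ‖c'' - c'‖ ≤ C * ‖c' - c₀‖ ^ (E - ε / 2) + κ) := by
    have hp : ∀ c'' : ℂ, ∀ p : ℕ, 1 ≤ p → (fun z : ℂ => z ^ d + c'')^[p] 0 = 0 →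
        ∃ p : ℕ, 1 ≤ p ∧ c'' ∈ Cn d p := by
      intro c'' p hp1 hp2
      have h1 : Function.IsPeriodicPt (fc d c'') p 0 := hp2
      exact ⟨_, Function.IsPeriodicPt.minimalPeriod_pos hp1 h1, rfl⟩
    intro κ hκ c' hc'
    by_cases hne : c' = c₀
    · -- the parameters of large periods converge to `c₀`
      obtain ⟨t, ht0, ht1⟩ : ∃ t : ℝ, 0 < t ∧ t + C * t ^ (E - ε / 2) ≤ κ := by
        have h1 : Tendsto (fun t : ℝ => t + C * t ^ (E - ε / 2)) (𝓝[>] 0) (𝓝 (0 + C * 0)) := by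
          apply Tendsto.add
          · exact tendsto_id.mono_left nhdsWithin_le_nhds
          · apply Tendsto.const_mul
            have h2 := (Real.continuousAt_rpow_const 0 (E - ε / 2) (Or.inr hσ1.le)).tendsto
            rw [Real.zero_rpow hσ1.ne'] at h2
            exact h2.mono_left nhdsWithin_le_nhds
        rw [mul_zero, add_zero] at h1
        obtain ⟨t, h2, h3⟩ := ((h1.eventually_lt_const hκ).and self_mem_nhdsWithin).exists
        exact ⟨t, h3, h2.le⟩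
      have hχ2 : 0 < χ / 2 := by positivity
      obtain ⟨n, ⟨c₁, hc₁, hc₁2⟩, hn1, hn2⟩ := ((ex_centre hd (hχe ▸ h : Lyap d χ c₀) hχ2 le_rfl).and
        ((eventually_ge_atTop 1).and (ev_lin hχ2 (-Real.log t)))).exists
      have hct : ‖c₁ - c₀‖ ≤ t := by
        refine hc₁2.trans ?_
        rw [← Real.exp_log ht0]
        apply Real.exp_le_exp.2
        have : (χ - χ / 2) * n = χ / 2 * n := by ring
        linarith
      have hPc₁ := Pool.Agent.N896.MB.per_zero hc₁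
      have hmem : c₁ ∈ N62a1eb23.multibrotSet d := by
        rw [Pool.Agent.H712R2.mem_multibrot_iff hd]
        exact Pool.Agent.Y298.CA.bd_of_centre hd hn1 hPc₁
      have hne₁ : c₁ ≠ c₀ := Pool.Agent.N253.MS.ne_of_lyap hd h hn1 hPc₁
      obtain ⟨⟨c₂, h2, p, hp1, hp2, -⟩, c₃, h3, h4⟩ := HC c₁ hmem hne₁
      have hb : C * ‖c₁ - c₀‖ ^ (E - ε / 2) ≤ C * t ^ (E - ε / 2) := by gcongr
      have hC0 : 0 ≤ C * ‖c' - c₀‖ ^ (E - ε / 2) := by positivity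
      have htri : ∀ x : ℂ, ‖x - c₁‖ ≤ C * ‖c₁ - c₀‖ ^ (E - ε / 2) →
          ‖x - c'‖ ≤ C * ‖c' - c₀‖ ^ (E - ε / 2) + κ := by
        intro x hx
        calc ‖x - c'‖ = ‖(x - c₁) + (c₁ - c₀)‖ := by rw [hne]; congr 1; ring
          _ ≤ ‖x - c₁‖ + ‖c₁ - c₀‖ := norm_add_le _ _
          _ ≤ _ := by linarith
      obtain ⟨p', hp', hp''⟩ := hp c₂ p hp1 hp2
      exact ⟨⟨p', hp', c₂, hp'', htri c₂ h2⟩, c₃, h4, htri c₃ h3⟩
    · obtain ⟨⟨c₂, h2, p, hp1, hp2, -⟩, c₃, h3, h4⟩ := HC c' hc' hne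
      obtain ⟨p', hp', hp''⟩ := hp c₂ p hp1 hp2
      exact ⟨⟨p', hp', c₂, hp'', by linarith⟩, c₃, h4, by linarith⟩
  refine ⟨ε * χ, by positivity, ?_⟩
  have hpos : 0 < ε * χ / 2 := by positivity
  filter_upwards [ev_lin hpos (Real.log (C * 2 ^ E + 1))] with n hn c hc r hr1 hr2 c' hc' hcc
  have hn0 : (0 : ℝ) ≤ n := Nat.cast_nonneg n
  have hr0 : 0 < r := (Real.exp_pos _).trans_le hr1
  have hcr : ‖c - c₀‖ ≤ r := by
    refine hc.trans (le_trans (le_of_eq ?_) hr1)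
    congr 1
    ring
  have hc₀ : ‖c' - c₀‖ ≤ 2 * r := by
    calc ‖c' - c₀‖ = ‖(c' - c) + (c - c₀)‖ := by congr 1; ring
      _ ≤ ‖c' - c‖ + ‖c - c₀‖ := norm_add_le _ _
      _ ≤ _ := by linarith
  have hbound : C * ‖c' - c₀‖ ^ (E - ε / 2) + r ^ E ≤ Real.exp (ε * χ * n) * r ^ E := by
    have h1 : r ^ (-(ε / 2)) ≤ Real.exp (ε * χ / 2 * n) := by
      have h3 : Real.exp (-(ε * χ / 2 * n)) ≤ r ^ (ε / 2) := by
        calc Real.exp (-(ε * χ / 2 * n)) ≤ Real.exp (-((1 - ε) * χ * n) * (ε / 2)) := by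
              apply Real.exp_le_exp.2
              have h4 : (1 - ε) * χ * n * (ε / 2) ≤ 1 * χ * n * (ε / 2) := by
                gcongr
                linarith
              linarith
          _ = Real.exp (-((1 - ε) * χ * n)) ^ (ε / 2) := by rw [Real.exp_mul]
          _ ≤ _ := by gcongr
      rw [Real.rpow_neg hr0.le]
      have h4 : (r ^ (ε / 2))⁻¹ ≤ (Real.exp (-(ε * χ / 2 * n)))⁻¹ := by gcongr
      rwa [← Real.exp_neg, neg_neg] at h4
    have h2 : C * 2 ^ E + 1 ≤ Real.exp (ε * χ / 2 * n) := by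
      rw [← Real.exp_log (show (0 : ℝ) < C * 2 ^ E + 1 by positivity)]
      exact Real.exp_le_exp.2 hn.le
    have h5 : (1 : ℝ) ≤ Real.exp (ε * χ / 2 * n) := Real.one_le_exp (by positivity)
    calc C * ‖c' - c₀‖ ^ (E - ε / 2) + r ^ E ≤ C * (2 * r) ^ (E - ε / 2) + r ^ E := by gcongr
      _ = C * (2 ^ (E - ε / 2) * (r ^ E * r ^ (-(ε / 2)))) + r ^ E := by
          rw [Real.mul_rpow (by norm_num) hr0.le, ← Real.rpow_add hr0, sub_eq_add_neg]
      _ ≤ C * (2 ^ E * (r ^ E * Real.exp (ε * χ / 2 * n))) +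
          r ^ E * Real.exp (ε * χ / 2 * n) := by
          have h6 : (2 : ℝ) ^ (E - ε / 2) ≤ 2 ^ E := by
            apply Real.rpow_le_rpow_of_exponent_le (by norm_num)
            linarith
          have h7 : r ^ E ≤ r ^ E * Real.exp (ε * χ / 2 * n) :=
            le_mul_of_one_le_right (by positivity) h5
          gcongr
      _ = (C * 2 ^ E + 1) * Real.exp (ε * χ / 2 * n) * r ^ E := by ring
      _ ≤ Real.exp (ε * χ / 2 * n) * Real.exp (ε * χ / 2 * n) * r ^ E := by gcongr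
      _ = _ := by rw [← Real.exp_add]; congr 2; ring
  obtain ⟨⟨p, hp, c₂, h2, h3⟩, c₃, h4, h5⟩ := hall (r ^ E) (by positivity) c' hc'
  exact ⟨⟨p, hp, c₂, h2, h3.trans hbound⟩, c₃, h4, h5.trans hbound⟩

end Pool.Agent.N772.TC
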