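import Pool.Agent.N772.TC.Low

/-!
# The renormalised maps at a superattracting parameter
-/

set_option autoImplicit false

open Set Filter Metric MeasureTheory Topology

namespace Pool.Agent.N772.TC

open Pool.Agent.TH279.MD Pool.Agent.Y298.SH Pool.Agent.Y298.SH.CD Pool.Agent.Y298.CA
open Pool.Agent.N253.MS
open Pool.Agent.H712R2 (P fc)

theorem Bd.varG' {d n : ℕ} {A : ℝ} {c' : ℂ} (h : Bd d n A c') (hA : 1 ≤ A) {c : ℂ}
    (hc : c ∈ ball c' (1 / (8 * A))) {x : ℂ} (hx : x ∈ ball c (1 / (8 * A))) :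
    ‖deriv ((f d c)^[n - 1]) x - deriv ((f d c')^[n - 1]) c'‖ ≤
      16 * A ^ 2 * (‖c - c'‖ + ‖x - c‖) := by
  have hR : 0 < 1 / (8 * A) := nonempty_ball.1 ⟨c, hc⟩
  have h1 : ‖deriv ((f d c)^[n - 1]) c - deriv ((f d c')^[n - 1]) c'‖ ≤ 16 * A ^ 2 * ‖c - c'‖ := by
    rw [← R_eq hA]
    apply schw (g := fun c => deriv ((f d c)^[n - 1]) c) _ _ hc
    · exact (G_diff d (n - 1)).differentiableOn
    · exact fun y hy => (h y hy).1 y (mem_closedBall_self hR.le)
  have h2 : ‖deriv ((f d c)^[n - 1]) x - deriv ((f d c)^[n - 1]) c‖ ≤ 16 * A ^ 2 * ‖x - c‖ := by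
    rw [← R_eq hA]
    apply schw _ _ hx
    · exact ((differentiable_fn d c (n - 1)).deriv).differentiableOn
    · exact fun y hy => (h c hc).1 y (ball_subset_closedBall hy)
  calc ‖deriv ((f d c)^[n - 1]) x - deriv ((f d c')^[n - 1]) c'‖ =
        ‖(deriv ((f d c)^[n - 1]) x - deriv ((f d c)^[n - 1]) c) +
        (deriv ((f d c)^[n - 1]) c - deriv ((f d c')^[n - 1]) c')‖ := by congr 1; ring
    _ ≤ _ := (norm_add_le _ _).trans (by linarith)

/-- the function `P` next to a superattracting parameter -/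
theorem Bd.linP {d n : ℕ} {A : ℝ} {c' : ℂ} (h : Bd d n A c') (hA : 1 ≤ A) (hP : P d n c' = 0)
    {b : ℂ} (hb : ‖b - c'‖ < 1 / (8 * A)) :
    ‖P d n b - deriv (P d n) c' * (b - c')‖ ≤ 16 * A ^ 2 * ‖b - c'‖ ^ 2 := by
  have hsub : closedBall c' ‖b - c'‖ ⊆ ball c' (1 / (8 * A)) := closedBall_subset_ball hb
  have h1 := Convex.norm_image_sub_le_of_norm_deriv_le (𝕜 := ℂ)
    (f := fun x => P d n x - deriv (P d n) c' * x) (C := 16 * A ^ 2 * ‖b - c'‖)
    (s := closedBall c' ‖b - c'‖) (x := c') (y := b) (fun x _ =>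
      (((Pool.Agent.H713R2.differentiable_P d n) x).sub
        ((differentiableAt_id).const_mul _))) (by
      intro x hx
      have h2 : deriv (fun x => P d n x - deriv (P d n) c' * x) x =
          deriv (P d n) x - deriv (P d n) c' := by
        have h3 : HasDerivAt (fun x => P d n x - deriv (P d n) c' * x)
            (deriv (P d n) x - deriv (P d n) c' * 1) x :=
          (((Pool.Agent.H713R2.differentiable_P d n) x).hasDerivAt).sub
            ((hasDerivAt_id x).const_mul _)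
        rw [h3.deriv, mul_one]
      rw [h2]
      refine (h.varP hA (hsub hx)).trans ?_
      rw [mem_closedBall, dist_eq_norm] at hx
      gcongr) (convex_closedBall _ _) (mem_closedBall_self (norm_nonneg _)) (by
      rw [mem_closedBall, dist_eq_norm])
  simp only [hP] at h1
  have h3 : (P d n b - deriv (P d n) c' * b) - (0 - deriv (P d n) c' * c') =
      P d n b - deriv (P d n) c' * (b - c') := by ring
  rw [h3] at h1
  calc _ ≤ 16 * A ^ 2 * ‖b - c'‖ * ‖b - c'‖ := h1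
    _ = _ := by ring

/-- the iterate next to the critical value -/
theorem Bd.linG {d n : ℕ} {A : ℝ} {c' : ℂ} (h : Bd d n A c') (hA : 1 ≤ A)
    {b : ℂ} (hb : ‖b - c'‖ < 1 / (8 * A)) {y : ℂ} (hy : ‖y‖ < 1 / (8 * A)) :
    ‖(f d b)^[n - 1] (b + y) - (f d b)^[n - 1] b - deriv ((f d c')^[n - 1]) c' * y‖ ≤
      16 * A ^ 2 * (‖b - c'‖ + ‖y‖) * ‖y‖ := by
  have hbm : b ∈ ball c' (1 / (8 * A)) := by rwa [mem_ball, dist_eq_norm]
  have hsub : closedBall b ‖y‖ ⊆ ball b (1 / (8 * A)) := closedBall_subset_ball hy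
  have h1 := Convex.norm_image_sub_le_of_norm_deriv_le (𝕜 := ℂ)
    (f := fun x => (f d b)^[n - 1] x - deriv ((f d c')^[n - 1]) c' * x)
    (C := 16 * A ^ 2 * (‖b - c'‖ + ‖y‖))
    (s := closedBall b ‖y‖) (x := b) (y := b + y) (fun x _ =>
      ((differentiable_fn d b (n - 1) x).sub ((differentiableAt_id).const_mul _))) (by
      intro x hx
      have h2 : deriv (fun x => (f d b)^[n - 1] x - deriv ((f d c')^[n - 1]) c' * x) x =
          deriv ((f d b)^[n - 1]) x - deriv ((f d c')^[n - 1]) c' := by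
        have h3 : HasDerivAt (fun x => (f d b)^[n - 1] x - deriv ((f d c')^[n - 1]) c' * x)
            (deriv ((f d b)^[n - 1]) x - deriv ((f d c')^[n - 1]) c' * 1) x :=
          ((differentiable_fn d b (n - 1) x).hasDerivAt).sub ((hasDerivAt_id x).const_mul _)
        rw [h3.deriv, mul_one]
      rw [h2]
      refine (h.varG' hA hbm (hsub hx)).trans ?_
      rw [mem_closedBall, dist_eq_norm] at hx
      gcongr) (convex_closedBall _ _) (mem_closedBall_self (norm_nonneg _)) (by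
      rw [mem_closedBall, dist_eq_norm, add_sub_cancel_left])
  have h3 : (fun x => (f d b)^[n - 1] x - deriv ((f d c')^[n - 1]) c' * x) (b + y) -
      (fun x => (f d b)^[n - 1] x - deriv ((f d c')^[n - 1]) c' * x) b =
      (f d b)^[n - 1] (b + y) - (f d b)^[n - 1] b - deriv ((f d c')^[n - 1]) c' * y := by
    simp only
    ring
  rw [h3, add_sub_cancel_left] at h1
  exact h1

theorem f_mul (d : ℕ) (b z : ℂ) : f d b z = b + z ^ d := by
  show z ^ d + b = b + z ^ d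
  ring

/-- the last iterates -/
theorem iter_last {d n : ℕ} (hn : 1 ≤ n) (b x : ℂ) :
    (f d b)^[n] x = (f d b)^[n - 1] (b + x ^ d) := by
  obtain ⟨k, rfl⟩ : ∃ k, n = k + 1 := ⟨n - 1, by omega⟩
  rw [Function.iterate_succ_apply, f_mul, Nat.add_sub_cancel]

theorem P_last {d n : ℕ} (hd : 2 ≤ d) (hn : 1 ≤ n) (b : ℂ) : P d n b = (f d b)^[n - 1] b := by
  show (f d b)^[n] 0 = _
  rw [iter_last hn, zero_pow (by omega), add_zero]

/-- **The renormalised maps.** -/
theorem Bd.uni {d n : ℕ} (hd : 2 ≤ d) (hn : 1 ≤ n) {A : ℝ} {c' : ℂ} (h : Bd d n A c') (hA : 1 ≤ A)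
    (hP : P d n c' = 0) {l m : ℂ} (hm : m ^ (d - 1) * deriv ((f d c')^[n - 1]) c' = 1)
    (hl : l * deriv (P d n) c' = m) {k z : ℂ} (hk : ‖l * k‖ < 1 / (8 * A))
    (hz : ‖(m * z) ^ d‖ < 1 / (8 * A)) :
    ‖(f d (c' + l * k))^[n] (m * z) - m * (z ^ d + k)‖ ≤
      16 * A ^ 2 * (‖l * k‖ ^ 2 + (‖l * k‖ + ‖(m * z) ^ d‖) * ‖(m * z) ^ d‖) ∧
    ‖deriv ((f d (c' + l * k))^[n]) (m * z) - d * z ^ (d - 1)‖ ≤
      16 * A ^ 2 * (‖l * k‖ + ‖(m * z) ^ d‖) * (d * ‖m * z‖ ^ (d - 1)) := by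
  obtain ⟨b, hb⟩ : ∃ b, b = c' + l * k := ⟨_, rfl⟩
  have hbc : b - c' = l * k := by rw [hb]; ring
  obtain ⟨y, hy⟩ : ∃ y, y = (m * z) ^ d := ⟨_, rfl⟩
  obtain ⟨D, hD⟩ : ∃ D, D = deriv ((f d c')^[n - 1]) c' := ⟨_, rfl⟩
  rw [← hb, ← hy]
  rw [← hy] at hz
  rw [← hD] at hm
  have hb1 : ‖b - c'‖ < 1 / (8 * A) := by rw [hbc]; exact hk
  have e1 := h.linP hA hP hb1
  have e2 := h.linG hA hb1 hz
  rw [← hD] at e2
  rw [hbc] at e1 e2
  have hDy : D * y = m * z ^ d := by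
    have h1 : m ^ d = m ^ (d - 1) * m := by rw [← pow_succ, Nat.sub_add_cancel (by omega)]
    rw [hy, mul_pow, h1]
    calc D * (m ^ (d - 1) * m * z ^ d) = (m ^ (d - 1) * D) * (m * z ^ d) := by ring
      _ = _ := by rw [hm, one_mul]
  have hPk : deriv (P d n) c' * (l * k) = m * k := by
    rw [← hl]
    ring
  constructor
  · rw [iter_last hn, ← hy]
    have h3 : (f d b)^[n - 1] (b + y) - m * (z ^ d + k) =
        ((f d b)^[n - 1] (b + y) - (f d b)^[n - 1] b - D * y) +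
        (P d n b - deriv (P d n) c' * (l * k)) := by
      rw [P_last hd hn b, hDy, hPk]
      ring
    rw [h3]
    refine (norm_add_le _ _).trans ?_
    calc _ ≤ 16 * A ^ 2 * (‖l * k‖ + ‖y‖) * ‖y‖ + 16 * A ^ 2 * ‖l * k‖ ^ 2 := add_le_add e2 e1
      _ = _ := by ring
  · have h4 : deriv ((f d b)^[n]) (m * z) =
        deriv ((f d b)^[n - 1]) (b + y) * (d * (m * z) ^ (d - 1)) := by
      obtain ⟨j, rfl⟩ : ∃ j, n = j + 1 := ⟨n - 1, by omega⟩
      rw [deriv_iter_add, Function.iterate_one, deriv_f, f_mul, Nat.add_sub_cancel, hy]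
    have hbm : b ∈ ball c' (1 / (8 * A)) := by rwa [mem_ball, dist_eq_norm]
    have hym : b + y ∈ ball b (1 / (8 * A)) := by
      rwa [mem_ball, dist_eq_norm, add_sub_cancel_left]
    have h5 := h.varG' hA hbm hym
    rw [hbc, add_sub_cancel_left, ← hD] at h5
    have h6 : deriv ((f d b)^[n]) (m * z) - d * z ^ (d - 1) =
        (deriv ((f d b)^[n - 1]) (b + y) - D) * (d * (m * z) ^ (d - 1)) := by
      rw [h4, sub_mul]
      congr 1
      rw [mul_pow]
      calc (d : ℂ) * z ^ (d - 1) = (m ^ (d - 1) * D) * (d * z ^ (d - 1)) := by rw [hm, one_mul]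
        _ = _ := by ring
    rw [h6, norm_mul, norm_mul, norm_pow, Complex.norm_natCast]
    gcongr

end Pool.Agent.N772.TC
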